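import Pool.Agent.Q284.IM.One

/-! The natural density. -/

set_option autoImplicit false
set_option linter.unusedSectionVars false

namespace Pool.Agent.Q284.IM

open Filter Topology Complex NumberField IsDedekindDomain Pool.Agent.W540.BE Pool.Agent.TH553.RS
  Pool.Agent.TH553.ST Pool.Agent.H341R2

/-- limits of means along ultrafilters are means -/
theorem ultra_mean {ι : Type} (V : Ultrafilter ι) (W : ι → (ℝ → ℝ) → ℝ) (hW : ∀ i, Mean (W i)) :
    ∃ J, Mean J ∧ ∀ g, Bc g → Tendsto (fun i => W i g) V (𝓝 (J g)) := by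
  have h1 : ∀ g, ∃ x, Bc g → Tendsto (fun i => W i g) V (𝓝 x) := by
    intro g
    by_cases hg : Bc g
    · obtain ⟨hgc, B, hB⟩ := hg
      have h2 : ((V.map (fun i => W i g) : Ultrafilter ℝ) : Filter ℝ) ≤ 𝓟 (Set.Icc (-B) B) := by
        rw [Ultrafilter.coe_map, Filter.le_principal_iff, Filter.mem_map]
        exact Filter.univ_mem' fun i => abs_le.1 ((hW i).le g B ⟨hgc, B, hB⟩ hB)
      obtain ⟨x, -, hx⟩ := isCompact_Icc.ultrafilter_le_nhds _ h2
      exact ⟨x, fun _ => by rw [Ultrafilter.coe_map] at hx; exact hx⟩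
    · exact ⟨0, fun h => absurd h hg⟩
  choose J hJ using h1
  refine ⟨J, ⟨fun g h hg hh => ?_, fun c g hg => ?_, fun g B hg hB => ?_⟩, fun g hg => hJ g hg⟩
  · refine tendsto_nhds_unique (hJ _ (hg.add hh)) (((hJ g hg).add (hJ h hh)).congr fun i => ?_)
    exact ((hW i).add g h hg hh).symm
  · refine tendsto_nhds_unique (hJ _ (hg.const_mul c)) (((hJ g hg).const_mul c).congr fun i => ?_)
    exact ((hW i).smul c g hg).symm
  · exact le_of_tendsto (hJ g hg).abs (Eventually.of_forall fun i => (hW i).le g B hg hB)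

/-- the law from the moments -/
theorem law_of_moments {ι : Type} {l : Filter ι} {W : ι → (ℝ → ℝ) → ℝ} (hW : ∀ i, Mean (W i))
    {J₀ : (ℝ → ℝ) → ℝ} (h₀ : Mean J₀)
    (h : ∀ n : ℤ, Tendsto (fun i => W i fun t => Real.cos (n * t)) l
      (𝓝 (J₀ fun t => Real.cos (n * t)))) {f : ℝ → ℝ} (hf : Continuous f) :
    Tendsto (fun i => W i fun t => f (Real.cos t)) l (𝓝 (J₀ fun t => f (Real.cos t))) := by
  rw [Filter.tendsto_iff_ultrafilter]
  intro V hV
  obtain ⟨J, hJ, hJV⟩ := ultra_mean V W hW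
  have h1 := hJV _ (Bc.comp_cos hf)
  rw [mean_unique hJ h₀ (fun n => tendsto_nhds_unique (hJV _ (Bc.cos n)) ((h n).mono_left hV)) hf]
    at h1
  exact h1

section

variable {K : Type} [Field K] [NumberField K] (θ : HeightOneSpectrum (𝓞 K) → ℝ)

/-- the averages are means -/
theorem mn_mean (n : ℕ) : Mean fun g => mn (fun v => g (θ v)) n where
  add g h _ _ := by
    unfold mn
    rw [Finset.sum_add_distrib, smul_add]
  smul c g _ := by
    unfold mn
    rw [← Finset.mul_sum, smul_eq_mul, smul_eq_mul]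
    ring
  le g B _ hB := by
    have hB0 : 0 ≤ B := (abs_nonneg _).trans (hB 0)
    unfold mn
    rw [smul_eq_mul, abs_mul, abs_inv, Nat.abs_cast]
    rcases Nat.eq_zero_or_pos (upto K n).card with h | h
    · rw [h]
      simpa using hB0
    · have h' : (0 : ℝ) < (upto K n).card := by exact_mod_cast h
      rw [inv_mul_le_iff₀ h']
      refine (Finset.abs_sum_le_sum_abs _ _).trans ?_
      refine (Finset.sum_le_sum fun v _ => hB _).trans (le_of_eq ?_)
      rw [Finset.sum_const, nsmul_eq_mul]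

/-- the real parts of the sums -/
theorem re_al (n : ℕ) (v : HeightOneSpectrum (𝓞 K)) : (∑ j, al θ n v j).re =
    ∑ j ∈ Finset.range (n + 1), Real.cos (((n : ℝ) - 2 * j) * θ v) := by
  rw [Complex.re_sum, Finset.sum_range]
  refine Finset.sum_congr rfl fun j _ => ?_
  unfold al
  rw [Complex.exp_ofReal_mul_I_re]

theorem im_al (n : ℕ) (v : HeightOneSpectrum (𝓞 K)) : (∑ j, al θ n v j).im = 0 := by
  have h1 : (∑ j, al θ n v j).im = ∑ j : Fin (n + 1), Real.sin (((n : ℝ) - 2 * (j : ℕ)) * θ v) := by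
    rw [Complex.im_sum]
    refine Finset.sum_congr rfl fun j _ => ?_
    unfold al
    rw [Complex.exp_ofReal_mul_I_im]
  have h2 : ∑ j : Fin (n + 1), Real.sin (((n : ℝ) - 2 * (j : ℕ)) * θ v) =
      ∑ j : Fin (n + 1), -Real.sin (((n : ℝ) - 2 * (j : ℕ)) * θ v) := by
    rw [← Equiv.sum_comp Fin.revPerm]
    refine Finset.sum_congr rfl fun j _ => ?_
    rw [← Real.sin_neg, Fin.revPerm_apply, Fin.val_rev]
    congr 1
    have hj := j.2
    have : ((n + 1 - ((j : ℕ) + 1) : ℕ) : ℝ) = n - (j : ℕ) := by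
      rw [Nat.cast_sub (by omega)]
      push_cast
      ring
    rw [this]
    ring
  rw [h1]
  rw [Finset.sum_neg_distrib] at h2
  linarith

/-- the sum of the cosines times the sine -/
theorem mul_sin (n : ℕ) (t : ℝ) : Real.sin t * ∑ j ∈ Finset.range (n + 1),
    Real.cos (((n : ℝ) - 2 * j) * t) = Real.sin ((n + 1) * t) := by
  have h1 : ∀ j ∈ Finset.range (n + 1), Real.sin t * Real.cos (((n : ℝ) - 2 * j) * t) =
      1 / 2 * (Real.sin (((n : ℝ) + 1 - 2 * (j : ℕ)) * t) -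
        Real.sin (((n : ℝ) + 1 - 2 * ((j + 1 : ℕ) : ℝ)) * t)) := by
    intro j _
    have e1 : ((n : ℝ) + 1 - 2 * (j : ℕ)) * t = ((n : ℝ) - 2 * j) * t + t := by ring
    have e2 : ((n : ℝ) + 1 - 2 * ((j + 1 : ℕ) : ℝ)) * t = ((n : ℝ) - 2 * j) * t - t := by
      push_cast
      ring
    rw [e1, e2, Real.sin_add, Real.sin_sub]
    ring
  rw [Finset.mul_sum, Finset.sum_congr rfl h1, ← Finset.mul_sum,
    Finset.sum_range_sub' (fun j : ℕ => Real.sin (((n : ℝ) + 1 - 2 * (j : ℝ)) * t)) (n + 1)]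
  have e3 : ((n : ℝ) + 1 - 2 * ((n + 1 : ℕ) : ℝ)) * t = -(((n : ℝ) + 1) * t) := by
    push_cast
    ring
  rw [e3, Real.sin_neg, Nat.cast_zero, mul_zero, sub_zero]
  ring

/-- the length of the characters for the third law -/
theorem JC_sq (n : ℕ) : JC 2 (-1) (fun t => (∑ j ∈ Finset.range (n + 1),
    Real.cos (((n : ℝ) - 2 * j) * t)) ^ 2) = 1 := by
  have hpi := Real.pi_pos
  unfold JC
  have e : (fun t : ℝ => (∑ j ∈ Finset.range (n + 1), Real.cos (((n : ℝ) - 2 * j) * t)) ^ 2 *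
      (1 + ((-1 : ℤ) : ℝ) * Real.cos ((2 : ℕ) * t))) = fun t =>
      1 - Real.cos (((2 * (n + 1) : ℤ) : ℝ) * t) := by
    funext t
    have h1 := mul_sin n t
    have h2 : (1 + ((-1 : ℤ) : ℝ) * Real.cos ((2 : ℕ) * t)) = 2 * Real.sin t ^ 2 := by
      push_cast
      rw [Real.sin_sq_eq_half_sub]
      ring
    have h3 : 1 - Real.cos (((2 * (n + 1) : ℤ) : ℝ) * t) = 2 * Real.sin ((n + 1) * t) ^ 2 := by
      push_cast
      rw [Real.sin_sq_eq_half_sub]
      ring_nf
    rw [h2, h3, ← h1]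
    ring
  rw [e, intervalIntegral.integral_sub (by simp) ((by fun_prop : Continuous fun t : ℝ =>
    Real.cos (((2 * (n + 1) : ℤ) : ℝ) * t)).intervalIntegrable _ _), int_cos,
    if_neg (by omega)]
  simp only [intervalIntegral.integral_const, sub_zero, smul_eq_mul, mul_one]
  field_simp

/-- the second moments -/
theorem M_sq_al {n : ℕ} {U : Ultrafilter ℝ} (hU : (U : Filter ℝ) ≤ 𝓝[>] 0)
    (h : ∀ n : ℤ, ph θ U n = JC 2 (-1) fun t => Real.cos (n * t)) :
    (M (nm K) U fun v => (∑ j, al θ n v j).re ^ 2) = 1 := by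
  have e : ∀ t : ℝ, (∑ j ∈ Finset.range (n + 1), Real.cos (((n : ℝ) - 2 * j) * t)) ^ 2 =
      ∑ j ∈ Finset.range (n + 1), ∑ k ∈ Finset.range (n + 1),
        (1 / 2 * Real.cos (((2 * n - 2 * j - 2 * k : ℤ) : ℝ) * t) +
          1 / 2 * Real.cos (((2 * k - 2 * j : ℤ) : ℝ) * t)) := by
    intro t
    rw [sq, Finset.sum_mul_sum]
    refine Finset.sum_congr rfl fun j _ => Finset.sum_congr rfl fun k _ => ?_
    have e1 : (((2 * n - 2 * j - 2 * k : ℤ) : ℝ) * t) = ((n : ℝ) - 2 * j) * t +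
        ((n : ℝ) - 2 * k) * t := by
      push_cast
      ring
    have e2 : (((2 * k - 2 * j : ℤ) : ℝ) * t) = ((n : ℝ) - 2 * j) * t -
        ((n : ℝ) - 2 * k) * t := by
      push_cast
      ring
    rw [e1, e2, Real.cos_add, Real.cos_sub]
    ring
  rw [← JC_sq n]
  simp_rw [re_al]
  have hM := M_mean θ hU
  have hJ := JC_mean (N := 2) (by omega) (σ := -1) (by simp)
  have key : ∀ {J : (ℝ → ℝ) → ℝ}, Mean J → J (fun t => (∑ j ∈ Finset.range (n + 1),
      Real.cos (((n : ℝ) - 2 * j) * t)) ^ 2) = ∑ j ∈ Finset.range (n + 1),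
      ∑ k ∈ Finset.range (n + 1),
        (1 / 2 * J (fun t => Real.cos (((2 * n - 2 * j - 2 * k : ℤ) : ℝ) * t)) +
          1 / 2 * J (fun t => Real.cos (((2 * k - 2 * j : ℤ) : ℝ) * t))) := by
    intro J hJ
    have e' : (fun t : ℝ => (∑ j ∈ Finset.range (n + 1), Real.cos (((n : ℝ) - 2 * j) * t)) ^ 2) =
        fun t => ∑ j ∈ Finset.range (n + 1), ∑ k ∈ Finset.range (n + 1),
        (1 / 2 * Real.cos (((2 * n - 2 * j - 2 * k : ℤ) : ℝ) * t) +
          1 / 2 * Real.cos (((2 * k - 2 * j : ℤ) : ℝ) * t)) := funext e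
    rw [e']
    have hb : ∀ j k : ℕ, Bc fun t => (1 / 2 * Real.cos (((2 * n - 2 * j - 2 * k : ℤ) : ℝ) * t) +
        1 / 2 * Real.cos (((2 * k - 2 * j : ℤ) : ℝ) * t)) := fun j k =>
      ((Bc.cos _).const_mul _).add ((Bc.cos _).const_mul _)
    rw [hJ.sum _ fun j _ => Bc.sum _ fun k _ => hb j k]
    refine Finset.sum_congr rfl fun j _ => ?_
    rw [hJ.sum _ fun k _ => hb j k]
    refine Finset.sum_congr rfl fun k _ => ?_
    rw [hJ.add _ _ ((Bc.cos _).const_mul _) ((Bc.cos _).const_mul _), hJ.smul _ _ (Bc.cos _),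
      hJ.smul _ _ (Bc.cos _)]
  have k1 := key hM
  have k2 := key hJ
  simp only at k1
  rw [k1, k2]
  refine Finset.sum_congr rfl fun j _ => Finset.sum_congr rfl fun k _ => ?_
  rw [← h, ← h]
  rfl

/-- the mean value of the squares of the twists -/
theorem M_sq_tw {U : Ultrafilter ℝ} (hU : (U : Filter ℝ) ≤ 𝓝[>] 0) {τ : ℝ} (hτ : τ ≠ 0) :
    (M (nm K) U fun v => (((nm K v : ℕ) : ℂ) ^ (-(τ * I : ℂ))).re ^ 2) = 1 / 2 := by
  have h1 : (M (nm K) U fun v => (((nm K v : ℕ) : ℂ) ^ (-(((2 * τ : ℝ) : ℂ) * I))).re) = 0 := by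
    have hone : Tendsto (mn fun _ : HeightOneSpectrum (𝓞 K) => (1 : ℂ)) atTop (𝓝 ((1 : ℝ) : ℂ)) := by
      refine tendsto_const_nhds.congr' ?_
      filter_upwards [card_ev (K := K)] with n hn
      unfold mn
      rw [Finset.sum_const, Complex.real_smul, nsmul_eq_mul, mul_one]
      push_cast
      have hn' : ((upto K n).card : ℂ) ≠ 0 := by exact_mod_cast hn
      rw [inv_mul_cancel₀ hn']
    have h2 := mean_edge (F := K) (g := fun _ => (1 : ℂ)) (B := 1) (fun v => by simp) 1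
      (mn_tendsto hone) (2 * τ)
    rw [if_neg (mul_ne_zero two_ne_zero hτ)] at h2
    refine M_of_tendsto hU (h2.congr fun ε => ?_)
    unfold qt
    congr 2
    funext v
    rw [one_mul]
  have hb : Bd fun v : HeightOneSpectrum (𝓞 K) =>
      (((nm K v : ℕ) : ℂ) ^ (-(((2 * τ : ℝ) : ℂ) * I))).re :=
    ⟨1, fun v => (Complex.abs_re_le_norm _).trans (norm_cpow_I (nm_pos v) _).le⟩
  have h3 : (fun v : HeightOneSpectrum (𝓞 K) => (((nm K v : ℕ) : ℂ) ^ (-(τ * I : ℂ))).re ^ 2) =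
      fun v => 1 / 2 + 1 / 2 * (((nm K v : ℕ) : ℂ) ^ (-(((2 * τ : ℝ) : ℂ) * I))).re := by
    funext v
    have hv0 : ((nm K v : ℕ) : ℂ) ≠ 0 := by
      have := nm_pos v
      exact_mod_cast this.ne'
    have h4 : ((nm K v : ℕ) : ℂ) ^ (-(((2 * τ : ℝ) : ℂ) * I)) =
        (((nm K v : ℕ) : ℂ) ^ (-(τ * I : ℂ))) ^ 2 := by
      rw [← Complex.cpow_nat_mul]
      congr 1
      push_cast
      ring
    have h5 : ‖((nm K v : ℕ) : ℂ) ^ (-(τ * I : ℂ))‖ = 1 := norm_cpow_I (nm_pos v) τ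
    rw [h4]
    set z := ((nm K v : ℕ) : ℂ) ^ (-(τ * I : ℂ)) with hz
    have h6 : z.re ^ 2 + z.im ^ 2 = 1 := by
      have := Complex.sq_norm z
      rw [h5, Complex.normSq_apply] at this
      nlinarith
    have h7 : (z ^ 2).re = z.re ^ 2 - z.im ^ 2 := by
      rw [sq, Complex.mul_re]
      ring
    rw [h7]
    linarith
  rw [h3, M_add (sysF K) hU (Bd.const _) (hb.const_mul _), M_const (sysF K) hU,
    M_const_mul (sysF K) hU hb, h1]
  ring

/-- **No zeros and poles on the line.** -/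
theorem order_line {n : ℕ} (h : ∀ U : Ultrafilter ℝ, (U : Filter ℝ) ≤ 𝓝[>] 0 →
      ∀ n : ℤ, ph θ U n = JC 2 (-1) fun t => Real.cos (n * t)) {τ : ℝ} (hτ : τ ≠ 0) {Λ : ℂ → ℂ}
    (hΛ : Cn θ n τ Λ) : meromorphicOrderAt Λ (1 + τ * I) = ((0 : ℤ) : WithTop ℤ) := by
  obtain ⟨m, hm1, hm2⟩ := order_LS θ hΛ.1 hΛ.2
  rw [hm1]
  set U₀ : Ultrafilter ℝ := Ultrafilter.of (𝓝[>] 0) with hU₀
  have h₀ : (U₀ : Filter ℝ) ≤ 𝓝[>] 0 := Ultrafilter.of_le _
  have h1 := hm2 U₀ h₀
  have h2 : (fun v => ((∑ j, al θ n v j) * ((nm K v : ℕ) : ℂ) ^ (-(τ * I : ℂ))).re) =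
      fun v => (∑ j, al θ n v j).re * (((nm K v : ℕ) : ℂ) ^ (-(τ * I : ℂ))).re := by
    funext v
    rw [Complex.mul_re, im_al, zero_mul, sub_zero]
  rw [h2] at h1
  have hb1 : Bd fun v => (∑ j, al θ n v j).re :=
    ⟨(n + 1 : ℕ), fun v => (Complex.abs_re_le_norm _).trans (norm_sum_al θ n v)⟩
  have hb2 : Bd fun v : HeightOneSpectrum (𝓞 K) => (((nm K v : ℕ) : ℂ) ^ (-(τ * I : ℂ))).re :=
    ⟨1, fun v => (Complex.abs_re_le_norm _).trans (norm_cpow_I (nm_pos v) _).le⟩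
  have h3 := M_cs (sysF K) h₀ hb1 hb2
  rw [h1, M_sq_al θ h₀ (h U₀ h₀), M_sq_tw h₀ hτ] at h3
  have h4 : (m : ℝ) ^ 2 < 1 := by nlinarith
  have h5 : |(m : ℝ)| < 1 := by
    rw [← sq_abs] at h4
    exact (sq_lt_one_iff₀ (abs_nonneg _)).1 h4
  have h6 : m = 0 := Int.abs_lt_one_iff.1 (by exact_mod_cast h5)
  rw [h6]

/-- **The natural density.** -/
theorem natural (h : ∀ U : Ultrafilter ℝ, (U : Filter ℝ) ≤ 𝓝[>] 0 →
      ∀ n : ℤ, ph θ U n = JC 2 (-1) fun t => Real.cos (n * t))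
    (hc : ∀ n, 1 ≤ n → ∀ τ : ℝ, ∃ Λ, Cn θ n τ Λ)
    (h0 : ∀ n, 1 ≤ n → ∀ Λ, Cn θ n 0 Λ →
      meromorphicOrderAt Λ (1 + (0 : ℝ) * I) = ((0 : ℤ) : WithTop ℤ)) {f : ℝ → ℝ}
    (hf : Continuous f) :
    Tendsto (mn fun v => f (Real.cos (θ v))) atTop (𝓝 (JC 2 (-1) fun t => f (Real.cos t))) := by
  have hJ := JC_mean (N := 2) (by omega) (σ := -1) (by simp)
  have h1 : ∀ n, 1 ≤ n → Tendsto (mn fun v => ∑ j, al θ n v j) atTop (𝓝 0) := by
    intro n hn
    refine taub (norm_al θ n) (L := LS θ n) (fun s _ => rfl) fun τ => ?_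
    obtain ⟨Λ, hΛ⟩ := hc n hn τ
    have h7 : meromorphicOrderAt Λ (1 + τ * I) = ((0 : ℤ) : WithTop ℤ) := by
      rcases eq_or_ne τ 0 with rfl | hτ
      · exact h0 n hn Λ hΛ
      · exact order_line θ h hτ hΛ
    obtain ⟨g, h10, h11, h12⟩ := (meromorphicOrderAt_eq_int_iff hΛ.1).1 h7
    refine ⟨g, h10, h11, ?_⟩
    rw [eventually_nhdsWithin_iff] at h12
    filter_upwards [h12, hΛ.2] with s h13 h14 h15
    have hne : s ≠ 1 + τ * I := by
      intro h
      rw [h] at h15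
      simp at h15
    have h16 := h13 hne
    rw [zpow_zero, one_smul] at h16
    rw [← h16, h14 h15]
  have h2 : ∀ n, 1 ≤ n → Tendsto (mn fun v => (∑ j, al θ n v j).re) atTop (𝓝 0) := by
    intro n hn
    have h3 := (Complex.continuous_re.tendsto _).comp (h1 n hn)
    refine h3.congr fun N => ?_
    exact re_mn _ _
  have hlin : ∀ (N n : ℕ), mn (fun v => (∑ j, al θ n v j).re) N =
      ∑ j ∈ Finset.range (n + 1), mn (fun v => Real.cos (((n - 2 * j : ℤ) : ℝ) * θ v)) N := by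
    intro N n
    have h4 := (mn_mean θ N).sum (Finset.range (n + 1))
      (g := fun j t => Real.cos (((n - 2 * j : ℤ) : ℝ) * t)) fun j _ => Bc.cos _
    refine Eq.trans ?_ h4
    congr 1
    funext v
    rw [re_al]
    refine Finset.sum_congr rfl fun j _ => ?_
    push_cast
    rfl
  refine law_of_moments (W := fun N g => mn (fun v => g (θ v)) N) (mn_mean θ) hJ (fun n => ?_) hf
  -- the moments along ultrafilters
  rw [Filter.tendsto_iff_ultrafilter]
  intro V hV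
  obtain ⟨J, hJm, hJV⟩ := ultra_mean V (fun N g => mn (fun v => g (θ v)) N) (mn_mean θ)
  have hs : ∀ n : ℕ, ∑ j ∈ Finset.range (n + 1), J (fun t => Real.cos (((n - 2 * j : ℤ) : ℝ) * t)) =
      ((if n = 0 then 1 else 0 : ℤ) : ℝ) := by
    intro n
    have h5 : Tendsto (fun N => ∑ j ∈ Finset.range (n + 1),
        mn (fun v => Real.cos (((n - 2 * j : ℤ) : ℝ) * θ v)) N) V
        (𝓝 (∑ j ∈ Finset.range (n + 1), J (fun t => Real.cos (((n - 2 * j : ℤ) : ℝ) * t)))) :=
      tendsto_finsetSum _ fun j _ => hJV _ (Bc.cos _)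
    refine tendsto_nhds_unique h5 ?_
    rcases Nat.eq_zero_or_pos n with rfl | hn
    · refine tendsto_const_nhds.congr' ?_
      filter_upwards [hV (card_ev (K := K))] with N hN
      simp only [zero_add, Finset.range_one, Finset.sum_singleton, Nat.cast_zero, mul_zero,
        sub_zero, Int.cast_zero, zero_mul, Real.cos_zero, if_true, Int.cast_one]
      unfold mn
      rw [Finset.sum_const, nsmul_eq_mul, mul_one, smul_eq_mul, inv_mul_cancel₀ hN]
    · rw [if_neg hn.ne', Int.cast_zero]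
      refine ((h2 n hn).mono_left hV).congr fun N => ?_
      exact hlin N n
  have hs' : ∀ n : ℕ, ∑ j ∈ Finset.range (n + 1),
      JC 2 (-1) (fun t => Real.cos (((n - 2 * j : ℤ) : ℝ) * t)) =
      ((if n = 0 then 1 else 0 : ℤ) : ℝ) := by
    intro n
    have key : ∀ n : ℤ, JC 2 (-1) (fun t => Real.cos (n * t)) =
        (if n = 0 then 1 else 0) + if |n| = (2 : ℕ) then (((-1 : ℤ)) : ℝ) / 2 else 0 :=
      fun n => JC_cos (by omega) _ _
    set U₀ : Ultrafilter ℝ := Ultrafilter.of (𝓝[>] 0) with hU₀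
    have h₀ : (U₀ : Filter ℝ) ≤ 𝓝[>] 0 := Ultrafilter.of_le _
    induction n using Nat.strong_induction_on with
    | _ n ih =>
      rcases n with _ | _ | n
      · simp only [zero_add, Finset.range_one, Finset.sum_singleton]
        rw [key]
        norm_num
      · rw [Finset.sum_range_succ, Finset.sum_range_one, key, key]
        norm_num
      · have hst := sum_step θ (U := U₀) n
        simp_rw [h U₀ h₀] at hst
        have e1 : (n + 1 + 1 : ℕ) = n + 2 := rfl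
        rw [e1, hst, ih n (by omega), key]
        rcases Nat.eq_zero_or_pos n with rfl | hn
        · norm_num
        · have hA : ¬ ((n : ℤ) + 2 = 0) := by omega
          have hB : ¬ |(n : ℤ) + 2| = ((2 : ℕ) : ℤ) := by
            rw [abs_of_pos (by omega)]
            omega
          have hC : ¬ (n + 2 = 0) := by omega
          rw [if_neg hn.ne', if_neg hA, if_neg hB, if_neg hC]
          norm_num
  have hdet := val_det (A := fun n : ℤ => J fun t => Real.cos (n * t))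
    (A' := fun n : ℤ => JC 2 (-1) fun t => Real.cos (n * t))
    (m := fun n => if n = 0 then 1 else 0)
    (fun n => by
      simp only [Int.cast_neg, neg_mul, Real.cos_neg]) hs
    (fun n => by
      simp only [Int.cast_neg, neg_mul, Real.cos_neg]) hs'
  have h6 := hJV _ (Bc.cos n)
  have h7 := congrFun hdet n
  rw [h7] at h6
  exact h6

end

end Pool.Agent.Q284.IM
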