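import Pool.Agent.Q284.IM.Nf

/-! From meromorphic continuations to the laws of the angles. -/

set_option autoImplicit false
set_option linter.unusedSectionVars false

namespace Pool.Agent.Q284.IM

open Filter Topology Complex NumberField IsDedekindDomain Pool.Agent.W540.BE Pool.Agent.TH553.RS
  Pool.Agent.TH553.ST Pool.Agent.H341R2

section

variable {K : Type} [Field K] [NumberField K]

/-- the weighted means -/
noncomputable def dm (φ : HeightOneSpectrum (𝓞 K) → ℝ) (ε : ℝ) : ℝ :=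
  EP (nm K) ε φ / EP (nm K) ε fun _ => 1

theorem dm_eq {φ : HeightOneSpectrum (𝓞 K) → ℝ} {ε : ℝ} (h : lam ε ≠ 0) :
    dm φ ε = qt (nm K) φ ε / qt (nm K) (fun _ => 1) ε := by
  unfold dm qt
  rw [div_div_div_cancel_right₀ h]

theorem lam_ne : ∀ᶠ ε : ℝ in 𝓝[>] 0, lam ε ≠ 0 := by
  filter_upwards [lam_tendsto.eventually_gt_atTop 0] with ε h
  exact h.ne'

theorem dm_tendsto {φ : HeightOneSpectrum (𝓞 K) → ℝ} (hφ : Bd φ) {c : ℝ}
    (h : ∀ U : Ultrafilter ℝ, (U : Filter ℝ) ≤ 𝓝[>] 0 → M (nm K) U φ = c) :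
    Tendsto (dm φ) (𝓝[>] 0) (𝓝 c) := by
  have h1 : Tendsto (qt (nm K) φ) (𝓝[>] 0) (𝓝 c) := tendsto_of_ultra fun U hU => by
    rw [← h U hU]
    exact M_lim (sysF K) hU hφ
  have h2 := h1.div (sysF K).one one_ne_zero
  rw [div_one] at h2
  refine h2.congr' ?_
  filter_upwards [lam_ne] with ε hε
  exact (dm_eq hε).symm

theorem M_of_dm {φ : HeightOneSpectrum (𝓞 K) → ℝ} {c : ℝ} (h : Tendsto (dm φ) (𝓝[>] 0) (𝓝 c))
    {U : Ultrafilter ℝ} (hU : (U : Filter ℝ) ≤ 𝓝[>] 0) : M (nm K) U φ = c := by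
  refine M_of_tendsto hU ?_
  have h2 := h.mul (sysF K).one
  rw [mul_one] at h2
  refine h2.congr' ?_
  filter_upwards [lam_ne, (sysF K).one.eventually_ne one_ne_zero] with ε hε h3
  rw [dm_eq hε, div_mul_cancel₀ _ h3]

variable (θ : HeightOneSpectrum (𝓞 K) → ℝ)

/-- a continuation -/
def Cn (n : ℕ) (τ : ℝ) (Λ : ℂ → ℂ) : Prop :=
  MeromorphicAt Λ (1 + τ * I) ∧ ∀ᶠ s in 𝓝 ((1 : ℂ) + τ * I), (1 : ℝ) < s.re → Λ s = LS θ n s

/-- **The orders of the poles.** -/
theorem exists_m (hc : ∀ n, 1 ≤ n → ∃ Λ, Cn θ n 0 Λ) : ∃ m : ℕ → ℤ, m 0 = 1 ∧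
    (∀ n, 1 ≤ n → ∀ Λ, Cn θ n 0 Λ →
      meromorphicOrderAt Λ (1 + (0 : ℝ) * I) = ((-m n : ℤ) : WithTop ℤ)) ∧
    ∀ U : Ultrafilter ℝ, (U : Filter ℝ) ≤ 𝓝[>] 0 → ∀ n : ℕ,
      ∑ j ∈ Finset.range (n + 1), ph θ U (n - 2 * j) = m n := by
  have h1 : ∀ n, ∃ m : ℤ, (n = 0 → m = 1) ∧ (1 ≤ n → (∀ Λ, Cn θ n 0 Λ →
      meromorphicOrderAt Λ (1 + (0 : ℝ) * I) = ((-m : ℤ) : WithTop ℤ))) ∧
      ∀ U : Ultrafilter ℝ, (U : Filter ℝ) ≤ 𝓝[>] 0 →
      ∑ j ∈ Finset.range (n + 1), ph θ U (n - 2 * j) = m := by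
    intro n
    rcases Nat.eq_zero_or_pos n with rfl | hn
    · refine ⟨1, fun _ => rfl, fun h => absurd h (by omega), fun U hU => ?_⟩
      simp only [zero_add, Finset.range_one, Finset.sum_singleton, Nat.cast_zero, mul_zero,
        sub_zero, Int.cast_one]
      exact ph_zero θ hU
    · have hval : ∀ Λ, Cn θ n 0 Λ → ∃ m : ℤ, meromorphicOrderAt Λ (1 + (0 : ℝ) * I) = m ∧
          ∀ U : Ultrafilter ℝ, (U : Filter ℝ) ≤ 𝓝[>] 0 →
          ∑ j ∈ Finset.range (n + 1), ph θ U (n - 2 * j) = -m := by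
        intro Λ hΛ
        obtain ⟨m, hm1, hm2⟩ := order_LS θ hΛ.1 hΛ.2
        refine ⟨m, hm1, fun U hU => ?_⟩
        rw [← sum_ph θ hU, ← hm2 U hU]
        congr 1
        funext v
        simp
      obtain ⟨Λ, hΛ⟩ := hc n hn
      obtain ⟨m, hm1, hm2⟩ := hval Λ hΛ
      refine ⟨-m, fun h => absurd h (by omega), fun _ Λ' hΛ' => ?_, fun U hU => ?_⟩
      · obtain ⟨m', hm1', hm2'⟩ := hval Λ' hΛ'
        have h2 := hm2 (Ultrafilter.of (𝓝[>] 0)) (Ultrafilter.of_le _)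
        rw [hm2' (Ultrafilter.of (𝓝[>] 0)) (Ultrafilter.of_le _)] at h2
        have h3 : m' = m := by
          have : (m' : ℝ) = m := by linarith
          exact_mod_cast this
        rw [hm1', h3, neg_neg]
      · rw [hm2 U hU]
        push_cast
        rfl
  choose m hm0 hm1 hm2 using h1
  exact ⟨m, hm0 0 rfl, fun n hn => hm1 n hn, fun U hU n => hm2 n U hU⟩

variable {θ} {m : ℕ → ℤ} {A : ℤ → ℝ}

/-- the values of the mean values -/
theorem val_zero (_he : ∀ n, A (-n) = A n)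
    (h : ∀ n : ℕ, ∑ j ∈ Finset.range (n + 1), A (n - 2 * j) = m n) : A 0 = m 0 := by
  have := h 0
  simpa using this

theorem val_one (he : ∀ n, A (-n) = A n)
    (h : ∀ n : ℕ, ∑ j ∈ Finset.range (n + 1), A (n - 2 * j) = m n) : 2 * A 1 = m 1 := by
  have h1 := h 1
  rw [Finset.sum_range_succ, Finset.sum_range_one] at h1
  norm_num at h1
  rw [he] at h1
  linarith

theorem val_two (he : ∀ n, A (-n) = A n)
    (h : ∀ n : ℕ, ∑ j ∈ Finset.range (n + 1), A (n - 2 * j) = m n) (n : ℕ) :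
    2 * A (n + 2) = m (n + 2) - m n := by
  have h1 := h (n + 2)
  rw [Finset.sum_range_succ, Finset.sum_range_succ'] at h1
  have h2 : ∀ j ∈ Finset.range (n + 1), A (((n + 2 : ℕ) : ℤ) - 2 * ((j + 1 : ℕ) : ℤ)) =
      A (n - 2 * j) := by
    intro j _
    congr 1
    push_cast
    ring
  have h3 : A (((n + 2 : ℕ) : ℤ) - 2 * ((n + 2 : ℕ) : ℤ)) = A (n + 2) := by
    rw [← he]
    congr 1
    omega
  have h4 : A (((n + 2 : ℕ) : ℤ) - 2 * ((0 : ℕ) : ℤ)) = A (n + 2) := congrArg A (by omega)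
  rw [Finset.sum_congr rfl h2, h3, h4, h n] at h1
  linarith

theorem val_int (he : ∀ n, A (-n) = A n)
    (h : ∀ n : ℕ, ∑ j ∈ Finset.range (n + 1), A (n - 2 * j) = m n) (a : ℤ) :
    ∃ k : ℤ, 2 * A a = k := by
  have h1 : ∀ n : ℕ, ∃ k : ℤ, 2 * A n = k := by
    intro n
    rcases n with _ | n
    · exact ⟨2 * m 0, by
        rw [Nat.cast_zero, val_zero he h]
        push_cast
        ring⟩
    · rcases n with _ | n
      · exact ⟨m 1, by
          have := val_one he h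
          simpa using this⟩
      · exact ⟨m (n + 2) - m n, by
          have := val_two he h n
          push_cast
          rw [show (n : ℤ) + 1 + 1 = n + 2 by ring]
          exact this⟩
  rcases Int.natAbs_eq a with h2 | h2
  · rw [h2]
    exact h1 _
  · rw [h2, he]
    exact h1 _

/-- the mean values are determined by the orders -/
theorem val_det {A' : ℤ → ℝ} (he : ∀ n, A (-n) = A n)
    (h : ∀ n : ℕ, ∑ j ∈ Finset.range (n + 1), A (n - 2 * j) = m n) (he' : ∀ n, A' (-n) = A' n)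
    (h' : ∀ n : ℕ, ∑ j ∈ Finset.range (n + 1), A' (n - 2 * j) = m n) : A = A' := by
  have h1 : ∀ n : ℕ, A n = A' n := by
    intro n
    rcases n with _ | n
    · rw [Nat.cast_zero, val_zero he h, val_zero he' h']
    · rcases n with _ | n
      · have h2 := val_one he h
        have h3 := val_one he' h'
        simp only [zero_add, Nat.cast_one]
        linarith
      · have h2 := val_two he h n
        have h3 := val_two he' h' n
        push_cast
        rw [show (n : ℤ) + 1 + 1 = n + 2 by ring]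
        linarith
  funext a
  rcases Int.natAbs_eq a with h2 | h2
  · rw [h2]
    exact h1 _
  · rw [h2, he, he']
    exact h1 _

end

end Pool.Agent.Q284.IM
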