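import Pool.Agent.Q284.IM.Dich
import Pool.Agent.TH553.RS.Mean

/-! The mean values of a finite family of characters on the primes. -/

set_option autoImplicit false
set_option linter.unusedSectionVars false

namespace Pool.Agent.Q284.IM

open Finset Filter Topology ComplexConjugate Pool.Agent.TH553.RS

section

variable {P : Type} {N : P → ℕ} {ι : Type} [Fintype ι] [Nonempty ι] {Λ : Type}
  [AddCommGroup Λ]

/-- a finite family of systems of characters -/
structure Fam (χ : ι → Λ → P → ℂ) : Prop where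
  norm : ∀ i a p, ‖χ i a p‖ = 1
  add : ∀ i a b p, χ i (a + b) p = χ i a p * χ i b p

variable {χ : ι → Λ → P → ℂ} (F : Fam χ)

include F in
theorem Fam.zero (i : ι) (p : P) : χ i 0 p = 1 := by
  have h := F.add i 0 0 p
  rw [add_zero] at h
  have h0 : χ i 0 p ≠ 0 := norm_ne_zero_iff.1 (by rw [F.norm]; exact one_ne_zero)
  exact (mul_eq_left₀ h0).1 h.symm

include F in
theorem Fam.neg (i : ι) (a : Λ) (p : P) : χ i (-a) p = conj (χ i a p) := by
  have h := F.add i a (-a) p
  rw [add_neg_cancel, F.zero] at h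
  have h1 : conj (χ i a p) * χ i a p = 1 := by
    rw [Complex.conj_mul', F.norm]
    simp
  calc χ i (-a) p = (conj (χ i a p) * χ i a p) * χ i (-a) p := by rw [h1, one_mul]
    _ = conj (χ i a p) * (χ i a p * χ i (-a) p) := by ring
    _ = conj (χ i a p) := by rw [← h, mul_one]

include F in
theorem Fam.sub (i : ι) (a b : Λ) (p : P) : χ i (a - b) p = χ i a p * conj (χ i b p) := by
  rw [sub_eq_add_neg, F.add, F.neg]

include F in
theorem Fam.re_le (i : ι) (a : Λ) (p : P) : |(χ i a p).re| ≤ 1 :=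
  (Complex.abs_re_le_norm _).trans (F.norm i a p).le

include F in
theorem Fam.bd (i : ι) (a : Λ) : Bd fun p => (χ i a p).re := ⟨1, F.re_le i a⟩

include F in
theorem Fam.nsmul (i : ι) (a : Λ) (p : P) (k : ℕ) : χ i (k • a) p = χ i a p ^ k := by
  induction k with
  | zero => rw [zero_smul, F.zero, pow_zero]
  | succ k ih => rw [succ_nsmul, F.add, ih, pow_succ]

variable (N χ) in
/-- the averages of the mean values -/
noncomputable def av (U : Ultrafilter ℝ) (a : Λ) : ℝ :=
  (Fintype.card ι : ℝ)⁻¹ * ∑ i, M N U fun p => (χ i a p).re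

variable (hN : Sys N) {U : Ultrafilter ℝ} (hU : (U : Filter ℝ) ≤ 𝓝[>] 0)

include F in
theorem av_neg (a : Λ) : av N χ U (-a) = av N χ U a := by
  unfold av
  congr 1
  refine sum_congr rfl fun i _ => ?_
  congr 1
  funext p
  rw [F.neg, Complex.conj_re]

include hN hU F in
theorem av_zero : av N χ U 0 = 1 := by
  unfold av
  have h : ∀ i, (M N U fun p => (χ i 0 p).re) = 1 := by
    intro i
    simp only [F.zero, Complex.one_re]
    exact M_one hN hU
  simp_rw [h]
  rw [sum_const, card_univ, nsmul_eq_mul, mul_one]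
  have : (Fintype.card ι : ℝ) ≠ 0 := by exact_mod_cast Fintype.card_ne_zero
  exact inv_mul_cancel₀ this

include hN hU F in
theorem av_pd (S : Finset Λ) (x : Λ → ℝ) :
    0 ≤ ∑ a ∈ S, ∑ b ∈ S, x a * x b * av N χ U (a - b) := by
  have h1 : ∀ i, (∑ a ∈ S, ∑ b ∈ S, x a * x b * M N U fun p => (χ i (a - b) p).re) =
      M N U fun p => ‖∑ a ∈ S, (x a : ℂ) * χ i a p‖ ^ 2 := by
    intro i
    have e : (fun p => ‖∑ a ∈ S, (x a : ℂ) * χ i a p‖ ^ 2) = fun p =>
        ∑ a ∈ S, ∑ b ∈ S, (x a * x b) * (χ i (a - b) p).re := by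
      funext p
      have h2 : ((‖∑ a ∈ S, (x a : ℂ) * χ i a p‖ ^ 2 : ℝ) : ℂ) =
          ∑ a ∈ S, ∑ b ∈ S, ((x a * x b : ℝ) : ℂ) * χ i (a - b) p := by
        rw [Complex.ofReal_pow, ← Complex.mul_conj', map_sum, sum_mul_sum]
        refine sum_congr rfl fun a _ => sum_congr rfl fun b _ => ?_
        rw [F.sub, map_mul, Complex.conj_ofReal]
        push_cast
        ring
      have h3 := congrArg Complex.re h2
      rw [Complex.ofReal_re, Complex.re_sum] at h3
      rw [h3]
      refine sum_congr rfl fun a _ => ?_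
      rw [Complex.re_sum]
      refine sum_congr rfl fun b _ => ?_
      rw [Complex.re_ofReal_mul]
    rw [e, M_sum hN hU S fun a _ => Bd.sum S fun b _ => (F.bd i (a - b)).const_mul _]
    refine sum_congr rfl fun a _ => ?_
    rw [M_sum hN hU S fun b _ => (F.bd i (a - b)).const_mul _]
    refine sum_congr rfl fun b _ => ?_
    rw [M_const_mul hN hU (F.bd i (a - b))]
  have h2 : ∑ a ∈ S, ∑ b ∈ S, x a * x b * av N χ U (a - b) = (Fintype.card ι : ℝ)⁻¹ *
      ∑ i, ∑ a ∈ S, ∑ b ∈ S, x a * x b * M N U fun p => (χ i (a - b) p).re := by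
    unfold av
    have e1 : ∀ a ∈ S, ∀ b ∈ S, x a * x b * ((Fintype.card ι : ℝ)⁻¹ *
        ∑ i, M N U fun p => (χ i (a - b) p).re) = ∑ i, (Fintype.card ι : ℝ)⁻¹ *
        (x a * x b * M N U fun p => (χ i (a - b) p).re) := by
      intro a _ b _
      rw [mul_sum, mul_sum]
      refine sum_congr rfl fun i _ => ?_
      ring
    rw [sum_congr rfl fun a ha => sum_congr rfl fun b hb => e1 a ha b hb]
    have e2 : ∀ a ∈ S, ∑ b ∈ S, ∑ i, (Fintype.card ι : ℝ)⁻¹ *
        (x a * x b * M N U fun p => (χ i (a - b) p).re) = ∑ i, ∑ b ∈ S,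
        (Fintype.card ι : ℝ)⁻¹ * (x a * x b * M N U fun p => (χ i (a - b) p).re) :=
      fun a _ => sum_comm
    rw [sum_congr rfl e2, sum_comm, mul_sum]
    refine sum_congr rfl fun i _ => ?_
    rw [mul_sum]
    refine sum_congr rfl fun a _ => ?_
    rw [mul_sum]
  rw [h2]
  refine mul_nonneg (by positivity) (sum_nonneg fun i _ => ?_)
  rw [h1]
  refine M_nonneg hN hU (Bd.sq ?_) fun p => sq_nonneg _
  refine ⟨∑ a ∈ S, |x a|, fun p => ?_⟩
  rw [abs_norm]
  refine (norm_sum_le _ _).trans (sum_le_sum fun a _ => ?_)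
  rw [norm_mul, F.norm, mul_one, Complex.norm_real, Real.norm_eq_abs]

variable (χ) in
/-- the size of the function near the kernel of the character `d` -/
noncomputable def qq (d : Λ) (i : ι) (p : P) : ℝ := (1 + (χ i d p).re) / 2

include F in
theorem qq_nonneg (d : Λ) (i : ι) (p : P) : 0 ≤ qq χ d i p := by
  have := abs_le.1 (F.re_le i d p)
  unfold qq
  linarith

include F in
theorem qq_le (d : Λ) (i : ι) (p : P) : qq χ d i p ≤ 1 := by
  have := abs_le.1 (F.re_le i d p)
  unfold qq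
  linarith

include F in
theorem bd_qq_pow (d : Λ) (i : ι) (J : ℕ) : Bd fun p => qq χ d i p ^ J :=
  ⟨1, fun p => by
    rw [abs_of_nonneg (pow_nonneg (qq_nonneg F d i p) J)]
    exact pow_le_one₀ (qq_nonneg F d i p) (qq_le F d i p)⟩

include F in
/-- the expansion -/
theorem qq_expand (d g : Λ) (i : ι) (J : ℕ) (p : P) : (χ i g p).re * qq χ d i p ^ J =
    ∑ l ∈ range (2 * J + 1), ((2 * J).choose l : ℝ) / 4 ^ J *
      (χ i (g + ((l : ℤ) - J) • d) p).re := by
  set z := χ i d p with hz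
  have hz1 : z * conj z = 1 := by
    rw [Complex.mul_conj', hz, F.norm]
    simp
  have h1 : ((qq χ d i p : ℝ) : ℂ) = conj z * (z + 1) ^ 2 / 4 := by
    unfold qq
    push_cast
    have h2 : ((z.re : ℝ) : ℂ) = (z + conj z) / 2 := by
      rw [Complex.add_conj]
      push_cast
      ring
    rw [← hz, h2]
    linear_combination (-(z : ℂ) / 4 - 1 / 2) * hz1
  have h3 : ((χ i g p) * ((qq χ d i p ^ J : ℝ) : ℂ)) =
      ∑ l ∈ range (2 * J + 1), ((((2 * J).choose l : ℝ) / 4 ^ J : ℝ) : ℂ) *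
        χ i (g + ((l : ℤ) - J) • d) p := by
    rw [Complex.ofReal_pow, h1, div_pow, mul_pow, ← pow_mul, add_pow, mul_sum, sum_div, mul_sum]
    refine sum_congr rfl fun l hl => ?_
    have h4 : χ i (g + ((l : ℤ) - J) • d) p = χ i g p * (z ^ l * conj z ^ J) := by
      rw [sub_smul, ← add_sub_assoc, F.sub, F.add, natCast_zsmul, natCast_zsmul, F.nsmul, F.nsmul,
        map_pow]
      ring
    rw [h4]
    push_cast
    ring
  have h5 := congrArg Complex.re h3
  rw [Complex.re_mul_ofReal, Complex.re_sum] at h5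
  rw [h5]
  refine sum_congr rfl fun l _ => ?_
  rw [Complex.re_ofReal_mul]

include hN hU F in
/-- **Concentration, first form.** -/
theorem conc_pow {d g : Λ} {s : ℝ} {J : ℕ}
    (h : ∀ j : ℤ, |j| ≤ J → av N χ U (g + j • d) = s) :
    s ≤ (Fintype.card ι : ℝ)⁻¹ * ∑ i, M N U fun p => qq χ d i p ^ J := by
  have h1 : (Fintype.card ι : ℝ)⁻¹ * ∑ i, (M N U fun p => (χ i g p).re * qq χ d i p ^ J) = s := by
    have h2 : ∀ i, (M N U fun p => (χ i g p).re * qq χ d i p ^ J) =
        ∑ l ∈ range (2 * J + 1), ((2 * J).choose l : ℝ) / 4 ^ J *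
          M N U fun p => (χ i (g + ((l : ℤ) - J) • d) p).re := by
      intro i
      simp_rw [qq_expand F d g i J]
      rw [M_sum hN hU _ fun l _ => (F.bd i _).const_mul _]
      refine sum_congr rfl fun l _ => ?_
      rw [M_const_mul hN hU (F.bd i _)]
    simp_rw [h2]
    rw [sum_comm, mul_sum]
    have h3 : ∀ l ∈ range (2 * J + 1), (Fintype.card ι : ℝ)⁻¹ * ∑ i,
        ((2 * J).choose l : ℝ) / 4 ^ J * (M N U fun p => (χ i (g + ((l : ℤ) - J) • d) p).re) =
        ((2 * J).choose l : ℝ) / 4 ^ J * s := by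
      intro l hl
      rw [mem_range] at hl
      rw [← h ((l : ℤ) - J) (by rw [abs_le]; constructor <;> omega)]
      unfold av
      rw [← mul_sum]
      ring
    rw [sum_congr rfl h3, ← sum_mul, ← sum_div]
    have h4 : ∑ l ∈ range (2 * J + 1), ((2 * J).choose l : ℝ) = 4 ^ J := by
      have := Nat.sum_range_choose (2 * J)
      have h5 : ((∑ l ∈ range (2 * J + 1), (2 * J).choose l : ℕ) : ℝ) = ((2 ^ (2 * J) : ℕ) : ℝ) := by
        rw [this]
      push_cast at h5
      rw [h5, pow_mul]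
      norm_num
    rw [h4, div_self (by positivity), one_mul]
  rw [← h1]
  refine mul_le_mul_of_nonneg_left (sum_le_sum fun i _ => ?_) (by positivity)
  refine M_mono hN hU ((F.bd i g).mul (bd_qq_pow F d i J)) (bd_qq_pow F d i J) fun p => ?_
  have h2 := abs_le.1 (F.re_le i g p)
  have h3 := pow_nonneg (qq_nonneg F d i p) J
  nlinarith [h2.2]

open Classical in
variable (χ) in
/-- the indicator function of the neighbourhood of the kernel -/
noncomputable def nb (d : Λ) (η : ℝ) (p : P) : ℝ := if ∃ i, 1 - η < qq χ d i p then 1 else 0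

theorem bd_nb (d : Λ) (η : ℝ) : Bd (nb χ d η) := ⟨1, fun p => by
  unfold nb
  split_ifs <;> simp⟩

include hN hU F in
theorem conc_M {d : Λ} {s : ℝ} {η : ℝ} (hη : 0 < η) (hη1 : η ≤ 1)
    (h : ∀ J : ℕ, ∃ g : Λ, ∀ j : ℤ, |j| ≤ J → av N χ U (g + j • d) = s) :
    s ≤ M N U (nb χ d η) := by
  have h1 : ∀ J : ℕ, s ≤ M N U (nb χ d η) + (1 - η) ^ J := by
    intro J
    obtain ⟨g, hg⟩ := h J
    refine (conc_pow F hN hU hg).trans ?_
    have h2 : ∀ i, (M N U fun p => qq χ d i p ^ J) ≤ M N U (nb χ d η) + (1 - η) ^ J := by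
      intro i
      rw [← M_const hN hU ((1 - η) ^ J), ← M_add hN hU (bd_nb d η) (Bd.const _)]
      refine M_mono hN hU (bd_qq_pow F d i J) ((bd_nb d η).add (Bd.const _)) fun p => ?_
      unfold nb
      by_cases hp : ∃ i, 1 - η < qq χ d i p
      · rw [if_pos hp]
        have h3 : qq χ d i p ^ J ≤ 1 := pow_le_one₀ (qq_nonneg F d i p) (qq_le F d i p)
        have h4 : 0 ≤ (1 - η) ^ J := pow_nonneg (by linarith) J
        linarith
      · rw [if_neg hp, zero_add]
        push Not at hp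
        exact pow_le_pow_left₀ (qq_nonneg F d i p) (hp i) J
    calc (Fintype.card ι : ℝ)⁻¹ * ∑ i, (M N U fun p => qq χ d i p ^ J)
        ≤ (Fintype.card ι : ℝ)⁻¹ * ∑ _i : ι, (M N U (nb χ d η) + (1 - η) ^ J) :=
          mul_le_mul_of_nonneg_left (sum_le_sum fun i _ => h2 i) (by positivity)
      _ = _ := by
          have : (Fintype.card ι : ℝ) ≠ 0 := by exact_mod_cast Fintype.card_ne_zero
          rw [sum_const, card_univ, nsmul_eq_mul, ← mul_assoc, inv_mul_cancel₀ this, one_mul]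
  have h2 : Tendsto (fun J : ℕ => M N U (nb χ d η) + (1 - η) ^ J) atTop
      (𝓝 (M N U (nb χ d η) + 0)) :=
    tendsto_const_nhds.add (tendsto_pow_atTop_nhds_zero_of_lt_one (by linarith) (by linarith))
  rw [add_zero] at h2
  exact ge_of_tendsto' h2 h1

end

end Pool.Agent.Q284.IM
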