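import Mathlib

/-! Means on the functions of the cosine of an angle are determined by the means of `cos (n t)`. -/

set_option autoImplicit false

namespace Pool.Agent.Q284.IM

open Finset

/-- bounded continuous functions -/
def Bc (g : ℝ → ℝ) : Prop := Continuous g ∧ ∃ B, ∀ t, |g t| ≤ B

theorem Bc.add {g h : ℝ → ℝ} (hg : Bc g) (hh : Bc h) : Bc fun t => g t + h t := by
  obtain ⟨h1, B, h2⟩ := hg
  obtain ⟨h3, C, h4⟩ := hh
  exact ⟨h1.add h3, B + C, fun t => (abs_add_le _ _).trans (add_le_add (h2 t) (h4 t))⟩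

theorem Bc.mul {g h : ℝ → ℝ} (hg : Bc g) (hh : Bc h) : Bc fun t => g t * h t := by
  obtain ⟨h1, B, h2⟩ := hg
  obtain ⟨h3, C, h4⟩ := hh
  refine ⟨h1.mul h3, B * C, fun t => ?_⟩
  rw [abs_mul]
  exact mul_le_mul (h2 t) (h4 t) (abs_nonneg _) ((abs_nonneg _).trans (h2 t))

theorem Bc.const (c : ℝ) : Bc fun _ => c := ⟨continuous_const, |c|, fun _ => le_rfl⟩

theorem Bc.const_mul {g : ℝ → ℝ} (hg : Bc g) (c : ℝ) : Bc fun t => c * g t := (Bc.const c).mul hg

theorem Bc.sub {g h : ℝ → ℝ} (hg : Bc g) (hh : Bc h) : Bc fun t => g t - h t := by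
  have := hg.add (hh.const_mul (-1))
  simpa [sub_eq_add_neg] using this

theorem Bc.cos (n : ℤ) : Bc fun t => Real.cos (n * t) :=
  ⟨by fun_prop, 1, fun t => Real.abs_cos_le_one _⟩

theorem Bc.cos1 : Bc fun t => Real.cos t := ⟨by fun_prop, 1, fun t => Real.abs_cos_le_one _⟩

theorem Bc.pow {g : ℝ → ℝ} (hg : Bc g) (k : ℕ) : Bc fun t => g t ^ k := by
  induction k with
  | zero => simpa using Bc.const 1
  | succ k ih => simpa only [pow_succ] using ih.mul hg

theorem Bc.sum {κ : Type} (S : Finset κ) {g : κ → ℝ → ℝ} (h : ∀ k ∈ S, Bc (g k)) :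
    Bc fun t => ∑ k ∈ S, g k t := by
  classical
  induction S using Finset.induction_on with
  | empty => simpa using Bc.const 0
  | insert a S ha ih =>
    simp only [sum_insert ha]
    exact (h a (mem_insert_self _ _)).add (ih fun k hk => h k (mem_insert_of_mem hk))

theorem Bc.comp_cos {f : ℝ → ℝ} (hf : Continuous f) : Bc fun t => f (Real.cos t) := by
  refine ⟨by fun_prop, ?_⟩
  obtain ⟨C, hC⟩ := (isCompact_Icc (a := (-1 : ℝ)) (b := 1)).exists_bound_of_continuousOn
    hf.continuousOn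
  exact ⟨C, fun t => hC _ ⟨Real.neg_one_le_cos t, Real.cos_le_one t⟩⟩

/-- normalised bounded linear functionals -/
structure Mean (J : (ℝ → ℝ) → ℝ) : Prop where
  add : ∀ g h, Bc g → Bc h → J (fun t => g t + h t) = J g + J h
  smul : ∀ (c : ℝ) g, Bc g → J (fun t => c * g t) = c * J g
  le : ∀ g B, Bc g → (∀ t, |g t| ≤ B) → |J g| ≤ B

variable {J J' : (ℝ → ℝ) → ℝ}

theorem Mean.sub (hJ : Mean J) {g h : ℝ → ℝ} (hg : Bc g) (hh : Bc h) :
    J (fun t => g t - h t) = J g - J h := by
  have h1 := hJ.add _ _ hg (hh.const_mul (-1))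
  rw [hJ.smul _ _ hh] at h1
  have e : (fun t => g t - h t) = fun t => g t + -1 * h t := by
    funext t
    ring
  rw [e, h1]
  ring

theorem Mean.zero (hJ : Mean J) : J (fun _ => 0) = 0 := by
  have := hJ.smul 0 (fun _ => 0) (Bc.const 0)
  simpa using this

theorem Mean.sum (hJ : Mean J) {κ : Type} (S : Finset κ) {g : κ → ℝ → ℝ} (h : ∀ k ∈ S, Bc (g k)) :
    J (fun t => ∑ k ∈ S, g k t) = ∑ k ∈ S, J (g k) := by
  classical
  induction S using Finset.induction_on with
  | empty => simpa using hJ.zero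
  | insert a S ha ih =>
    simp only [sum_insert ha]
    rw [hJ.add _ _ (h a (mem_insert_self _ _)) (Bc.sum S fun k hk => h k (mem_insert_of_mem hk)),
      ih fun k hk => h k (mem_insert_of_mem hk)]

/-- **Uniqueness.** -/
theorem mean_unique (hJ : Mean J) (hJ' : Mean J')
    (h : ∀ n : ℤ, J (fun t => Real.cos (n * t)) = J' fun t => Real.cos (n * t)) {f : ℝ → ℝ}
    (hf : Continuous f) : J (fun t => f (Real.cos t)) = J' fun t => f (Real.cos t) := by
  have h1 : ∀ (k : ℕ) (n : ℤ), J (fun t => Real.cos t ^ k * Real.cos (n * t)) =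
      J' fun t => Real.cos t ^ k * Real.cos (n * t) := by
    intro k
    induction k with
    | zero => intro n; simpa using h n
    | succ k ih =>
      intro n
      have e : (fun t => Real.cos t ^ (k + 1) * Real.cos (n * t)) = fun t =>
          (1 / 2) * (Real.cos t ^ k * Real.cos (((n + 1 : ℤ) : ℝ) * t)) +
          (1 / 2) * (Real.cos t ^ k * Real.cos (((n - 1 : ℤ) : ℝ) * t)) := by
        funext t
        push_cast
        rw [add_mul, sub_mul, one_mul, Real.cos_add, Real.cos_sub]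
        ring
      have hb : ∀ m : ℤ, Bc fun t => Real.cos t ^ k * Real.cos (m * t) :=
        fun m => (Bc.cos1.pow k).mul (Bc.cos m)
      rw [e, hJ.add _ _ ((hb _).const_mul _) ((hb _).const_mul _),
        hJ'.add _ _ ((hb _).const_mul _) ((hb _).const_mul _), hJ.smul _ _ (hb _),
        hJ.smul _ _ (hb _), hJ'.smul _ _ (hb _), hJ'.smul _ _ (hb _), ih, ih]
  have h2 : ∀ k : ℕ, J (fun t => Real.cos t ^ k) = J' fun t => Real.cos t ^ k := by
    intro k
    have := h1 k 0
    simpa using this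
  have h3 : ∀ p : Polynomial ℝ, J (fun t => p.eval (Real.cos t)) =
      J' fun t => p.eval (Real.cos t) := by
    intro p
    simp only [Polynomial.eval_eq_sum_range]
    have hb : ∀ i ∈ range (p.natDegree + 1), Bc fun t => p.coeff i * Real.cos t ^ i :=
      fun i _ => (Bc.cos1.pow i).const_mul _
    rw [hJ.sum _ hb, hJ'.sum _ hb]
    refine sum_congr rfl fun i _ => ?_
    rw [hJ.smul _ _ (Bc.cos1.pow i), hJ'.smul _ _ (Bc.cos1.pow i), h2]
  refine eq_of_forall_dist_le fun ε hε => ?_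
  obtain ⟨p, hp⟩ := exists_polynomial_near_of_continuousOn (-1) 1 f hf.continuousOn (ε / 2)
    (by linarith)
  have hbf := Bc.comp_cos hf
  have hbp : Bc fun t => p.eval (Real.cos t) := Bc.comp_cos p.continuous
  have hd : ∀ t, |p.eval (Real.cos t) - f (Real.cos t)| ≤ ε / 2 := fun t =>
    (hp _ ⟨Real.neg_one_le_cos t, Real.cos_le_one t⟩).le
  have h4 := hJ.le _ _ (hbp.sub hbf) hd
  have h5 := hJ'.le _ _ (hbp.sub hbf) hd
  rw [hJ.sub hbp hbf] at h4
  rw [hJ'.sub hbp hbf] at h5
  rw [h3 p] at h4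
  rw [Real.dist_eq]
  rw [abs_le] at *
  constructor <;> linarith [h4.1, h4.2, h5.1, h5.2]

end Pool.Agent.Q284.IM
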