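import Mathlib

/-! Nonnegative cosine polynomials with integer coefficients and constant term one. -/

set_option autoImplicit false

namespace Pool.Agent.Q284.IM

open Finset

/-- sums over equally spaced points -/
theorem sum_cos_zero {N : ℕ} (hN : 0 < N) (k : ℤ) (hk : ¬ (N : ℤ) ∣ k) (x : ℝ) :
    ∑ l ∈ range N, Real.cos (x + 2 * Real.pi * k * l / N) = 0 := by
  set z : ℂ := Complex.exp (2 * Real.pi * Complex.I * k / N) with hz
  have hN0 : (N : ℂ) ≠ 0 := by exact_mod_cast hN.ne'
  have h1 : z ^ N = 1 := by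
    rw [hz, ← Complex.exp_nat_mul]
    have : (N : ℂ) * (2 * Real.pi * Complex.I * k / N) = k * (2 * Real.pi * Complex.I) := by
      field_simp
    rw [this]
    exact Complex.exp_int_mul_two_pi_mul_I k
  have h2 : z ≠ 1 := by
    intro h
    rw [hz, Complex.exp_eq_one_iff] at h
    obtain ⟨n, hn⟩ := h
    have h3 : (k : ℂ) = n * N := by
      have hpi : (2 * Real.pi * Complex.I : ℂ) ≠ 0 := Complex.two_pi_I_ne_zero
      have h4 : (2 * Real.pi * Complex.I : ℂ) * k = (2 * Real.pi * Complex.I) * (n * N) := by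
        rw [div_eq_iff hN0] at hn
        rw [hn]
        ring
      exact mul_left_cancel₀ hpi h4
    apply hk
    refine ⟨n, ?_⟩
    have h5 : k = n * N := by exact_mod_cast h3
    rw [h5]
    ring
  have h3 : ∑ l ∈ range N, z ^ l = 0 := by
    have := mul_geom_sum z N
    rw [h1, sub_self] at this
    exact (mul_eq_zero.1 this).resolve_left (sub_ne_zero.2 h2)
  have h4 : ∀ l : ℕ, Real.cos (x + 2 * Real.pi * k * l / N) = (Complex.exp (x * Complex.I) * z ^ l).re := by
    intro l
    rw [hz, ← Complex.exp_nat_mul, ← Complex.exp_add]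
    have : (x : ℂ) * Complex.I + l * (2 * Real.pi * Complex.I * k / N) =
        ((x + 2 * Real.pi * k * l / N : ℝ) : ℂ) * Complex.I := by
      push_cast
      field_simp
    rw [this, Complex.exp_ofReal_mul_I_re]
  calc ∑ l ∈ range N, Real.cos (x + 2 * Real.pi * k * l / N)
      = ∑ l ∈ range N, (Complex.exp (x * Complex.I) * z ^ l).re := sum_congr rfl fun l _ => h4 l
    _ = (Complex.exp (x * Complex.I) * ∑ l ∈ range N, z ^ l).re := by
        rw [mul_sum, Complex.re_sum]
    _ = 0 := by rw [h3, mul_zero, Complex.zero_re]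

/-- the points -/
noncomputable def pt (N : ℕ) (α : ℝ) (l : ℕ) : ℝ := (α + 2 * Real.pi * l) / N

theorem sum_pt_zero {N : ℕ} (hN : 0 < N) (k : ℤ) (hk : ¬ (N : ℤ) ∣ k) (α : ℝ) :
    ∑ l ∈ range N, Real.cos (k * pt N α l) = 0 := by
  have hN0 : (N : ℝ) ≠ 0 := by exact_mod_cast hN.ne'
  rw [← sum_cos_zero hN k hk (k * α / N)]
  refine sum_congr rfl fun l _ => ?_
  congr 1
  unfold pt
  field_simp

theorem sum_pt_self {N : ℕ} (hN : 0 < N) (α : ℝ) :
    ∑ l ∈ range N, Real.cos (N * pt N α l) = N * Real.cos α := by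
  have hN0 : (N : ℝ) ≠ 0 := by exact_mod_cast hN.ne'
  have h : ∀ l ∈ range N, Real.cos (N * pt N α l) = Real.cos α := by
    intro l _
    have : (N : ℝ) * pt N α l = α + l * (2 * Real.pi) := by
      unfold pt
      field_simp
    rw [this, Real.cos_add_nat_mul_two_pi]
  rw [sum_congr rfl h, sum_const, card_range, nsmul_eq_mul]

/-- the cosine polynomial -/
noncomputable def hp (c : ℕ → ℤ) (N : ℕ) (t : ℝ) : ℝ :=
  1 + ∑ k ∈ Icc 1 N, (c k : ℝ) * Real.cos (k * t)

theorem hp_deriv (c : ℕ → ℤ) (N : ℕ) (t : ℝ) :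
    HasDerivAt (hp c N) (-∑ k ∈ Icc 1 N, (c k : ℝ) * k * Real.sin (k * t)) t := by
  unfold hp
  have h : ∀ k ∈ Icc 1 N, HasDerivAt (fun t : ℝ => (c k : ℝ) * Real.cos (k * t))
      (-((c k : ℝ) * k * Real.sin (k * t))) t := by
    intro k _
    have h1 : HasDerivAt (fun t : ℝ => (k : ℝ) * t) k t := by
      simpa using (hasDerivAt_id t).const_mul (k : ℝ)
    have h2 := (h1.cos).const_mul (c k : ℝ)
    have e : (c k : ℝ) * (-Real.sin (k * t) * k) = -((c k : ℝ) * k * Real.sin (k * t)) := by ring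
    rw [e] at h2
    exact h2
  have h3 := HasDerivAt.fun_sum h
  rw [sum_neg_distrib] at h3
  simpa using h3.const_add 1

/-- **Classification.** -/
theorem cls {c : ℕ → ℤ} {N : ℕ} (hN : 0 < N) (hc : c N ≠ 0) (h0 : ∀ t, 0 ≤ hp c N t) :
    (c N = 1 ∨ c N = -1) ∧ ∀ k, 0 < k → k < N → c k = 0 := by
  have hNR : (0 : ℝ) < N := by exact_mod_cast hN
  -- the sums of the values
  have hA : ∀ α : ℝ, ∑ l ∈ range N, hp c N (pt N α l) = N + c N * (N * Real.cos α) := by
    intro α
    unfold hp
    rw [sum_add_distrib, sum_const, card_range, nsmul_eq_mul, mul_one, sum_comm]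
    congr 1
    have h1 : ∀ k ∈ Icc 1 N, k ≠ N → ∑ l ∈ range N, (c k : ℝ) * Real.cos (k * pt N α l) = 0 := by
      intro k hk hkN
      rw [mem_Icc] at hk
      rw [← mul_sum]
      have := sum_pt_zero hN k (fun hd => by
        have := Int.le_of_dvd (by omega) hd
        omega) α
      push_cast at this
      rw [this, mul_zero]
    rw [sum_eq_single_of_mem N (mem_Icc.2 ⟨hN, le_rfl⟩) h1, ← mul_sum, sum_pt_self hN]
  -- the sign
  obtain ⟨α, hα⟩ : ∃ α : ℝ, (c N : ℝ) * Real.cos α = -|(c N : ℝ)| ∧ Real.cos α ^ 2 = 1 := by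
    rcases le_or_gt 0 (c N : ℝ) with h | h
    · exact ⟨Real.pi, by rw [Real.cos_pi, abs_of_nonneg h]; ring, by rw [Real.cos_pi]; norm_num⟩
    · exact ⟨0, by rw [Real.cos_zero, abs_of_neg h]; ring, by rw [Real.cos_zero]; norm_num⟩
  have h1 : 0 ≤ (N : ℝ) + c N * (N * Real.cos α) := by
    rw [← hA]
    exact sum_nonneg fun l _ => h0 _
  have h2 : (N : ℝ) + c N * (N * Real.cos α) = N * (1 - |(c N : ℝ)|) := by
    linear_combination (N : ℝ) * hα.1
  have h3 : |(c N : ℝ)| ≤ 1 := by
    rw [h2] at h1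
    have := nonneg_of_mul_nonneg_right h1 hNR
    linarith
  have h4 : (1 : ℝ) ≤ |(c N : ℝ)| := by
    have : (1 : ℤ) ≤ |c N| := Int.one_le_abs hc
    exact_mod_cast this
  have h5 : |(c N : ℝ)| = 1 := le_antisymm h3 h4
  have h6 : |c N| = 1 := by exact_mod_cast h5
  refine ⟨by rcases abs_eq (by norm_num : (0:ℤ) ≤ 1) |>.1 h6 with h | h <;> simp [h], ?_⟩
  -- the zeros
  have h7 : ∑ l ∈ range N, hp c N (pt N α l) = 0 := by
    rw [hA, h2, h5]
    ring
  have h8 : ∀ l ∈ range N, hp c N (pt N α l) = 0 :=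
    (sum_eq_zero_iff_of_nonneg fun l _ => h0 _).1 h7
  have h9 : ∀ l ∈ range N, ∑ k ∈ Icc 1 N, (c k : ℝ) * k * Real.sin (k * pt N α l) = 0 := by
    intro l hl
    have hm : IsLocalMin (hp c N) (pt N α l) := by
      refine Filter.Eventually.of_forall fun t => ?_
      rw [h8 l hl]
      exact h0 t
    have := hm.hasDerivAt_eq_zero (hp_deriv c N _)
    linarith
  intro m hm hmN
  -- helper for the sums of products
  have hcc : ∀ k ∈ Icc 1 N, ∑ l ∈ range N, Real.cos (((k : ℤ) - m : ℤ) * pt N α l) =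
      if k = m then (N : ℝ) else 0 := by
    intro k hk
    rw [mem_Icc] at hk
    split_ifs with h
    · subst h
      simp
    · refine sum_pt_zero hN _ (fun hd => ?_) α
      have h10 : (k : ℤ) - m ≠ 0 := by omega
      have h11 := Int.le_of_dvd (abs_pos.2 h10) ((dvd_abs _ _).2 hd)
      have h12 : |(k : ℤ) - m| < N := by
        rw [abs_lt]
        constructor <;> omega
      omega
  have hcs : ∀ k ∈ Icc 1 N, ∑ l ∈ range N, Real.cos (((k : ℤ) + m : ℤ) * pt N α l) =
      if k = N - m then (N : ℝ) * Real.cos α else 0 := by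
    intro k hk
    rw [mem_Icc] at hk
    split_ifs with h
    · rw [← sum_pt_self hN]
      refine sum_congr rfl fun l _ => ?_
      congr 2
      have : (k : ℤ) + m = N := by omega
      rw [this]
      simp
    · refine sum_pt_zero hN _ (fun hd => ?_) α
      obtain ⟨r, hr⟩ := hd
      have h10 : 0 < r := by
        by_contra h11
        have : (N : ℤ) * r ≤ 0 := mul_nonpos_of_nonneg_of_nonpos (by omega) (by omega)
        omega
      have h11 : r < 2 := by
        by_contra h12
        have : (N : ℤ) * 2 ≤ N * r := mul_le_mul_of_nonneg_left (by omega) (by omega)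
        omega
      have h12 : r = 1 := by omega
      subst h12
      omega
  have hB : (c m : ℝ) + c (N - m) * Real.cos α = 0 := by
    have h10 : ∑ l ∈ range N, hp c N (pt N α l) * Real.cos (m * pt N α l) = 0 :=
      sum_eq_zero fun l hl => by rw [h8 l hl, zero_mul]
    have h11 : ∀ l, hp c N (pt N α l) * Real.cos (m * pt N α l) = Real.cos (m * pt N α l) +
        ∑ k ∈ Icc 1 N, (c k : ℝ) / 2 * (Real.cos (((k : ℤ) - m : ℤ) * pt N α l) +
          Real.cos (((k : ℤ) + m : ℤ) * pt N α l)) := by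
      intro l
      unfold hp
      rw [add_mul, one_mul, sum_mul]
      congr 1
      refine sum_congr rfl fun k _ => ?_
      push_cast
      rw [sub_mul, add_mul, Real.cos_sub, Real.cos_add]
      ring
    simp_rw [h11] at h10
    rw [sum_add_distrib, sum_comm] at h10
    have h12 : ∑ l ∈ range N, Real.cos (m * pt N α l) = 0 := by
      have := sum_pt_zero hN m (fun hd => by
        have := Int.le_of_dvd (by omega) hd
        omega) α
      push_cast at this
      exact this
    rw [h12, zero_add] at h10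
    have h13 : ∀ k ∈ Icc 1 N, ∑ l ∈ range N, (c k : ℝ) / 2 *
        (Real.cos (((k : ℤ) - m : ℤ) * pt N α l) + Real.cos (((k : ℤ) + m : ℤ) * pt N α l)) =
        (if k = m then (c k : ℝ) / 2 * N else 0) +
          (if k = N - m then (c k : ℝ) / 2 * (N * Real.cos α) else 0) := by
      intro k hk
      rw [← mul_sum, sum_add_distrib, hcc k hk, hcs k hk, mul_add]
      split_ifs <;> simp
    rw [sum_congr rfl h13, sum_add_distrib, sum_ite_eq' (Icc 1 N) m, sum_ite_eq' (Icc 1 N) (N - m),
      if_pos (mem_Icc.2 ⟨hm, hmN.le⟩), if_pos (mem_Icc.2 ⟨by omega, by omega⟩)] at h10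
    have h14 : (N : ℝ) / 2 * ((c m : ℝ) + c (N - m) * Real.cos α) = 0 := by linarith
    exact (mul_eq_zero.1 h14).resolve_left (by positivity)
  have hC : (m : ℝ) * c m - (N - m : ℕ) * c (N - m) * Real.cos α = 0 := by
    have h10 : ∑ l ∈ range N, (∑ k ∈ Icc 1 N, (c k : ℝ) * k * Real.sin (k * pt N α l)) *
        Real.sin (m * pt N α l) = 0 :=
      sum_eq_zero fun l hl => by rw [h9 l hl, zero_mul]
    have h11 : ∀ l, (∑ k ∈ Icc 1 N, (c k : ℝ) * k * Real.sin (k * pt N α l)) *
        Real.sin (m * pt N α l) =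
        ∑ k ∈ Icc 1 N, (c k : ℝ) * k / 2 * (Real.cos (((k : ℤ) - m : ℤ) * pt N α l) -
          Real.cos (((k : ℤ) + m : ℤ) * pt N α l)) := by
      intro l
      rw [sum_mul]
      refine sum_congr rfl fun k _ => ?_
      push_cast
      rw [sub_mul, add_mul, Real.cos_sub, Real.cos_add]
      ring
    simp_rw [h11] at h10
    rw [sum_comm] at h10
    have h13 : ∀ k ∈ Icc 1 N, ∑ l ∈ range N, (c k : ℝ) * k / 2 *
        (Real.cos (((k : ℤ) - m : ℤ) * pt N α l) - Real.cos (((k : ℤ) + m : ℤ) * pt N α l)) =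
        (if k = m then (c k : ℝ) * k / 2 * N else 0) -
          (if k = N - m then (c k : ℝ) * k / 2 * (N * Real.cos α) else 0) := by
      intro k hk
      rw [← mul_sum, sum_sub_distrib, hcc k hk, hcs k hk, mul_sub]
      split_ifs <;> simp
    rw [sum_congr rfl h13, sum_sub_distrib, sum_ite_eq' (Icc 1 N) m, sum_ite_eq' (Icc 1 N) (N - m),
      if_pos (mem_Icc.2 ⟨hm, hmN.le⟩), if_pos (mem_Icc.2 ⟨by omega, by omega⟩)] at h10
    have h14 : (N : ℝ) / 2 * ((m : ℝ) * c m - (N - m : ℕ) * c (N - m) * Real.cos α) = 0 := by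
      linarith
    exact (mul_eq_zero.1 h14).resolve_left (by positivity)
  have h15 : (N : ℝ) * c m = 0 := by
    have h16 : ((N - m : ℕ) : ℝ) = N - m := by
      rw [Nat.cast_sub hmN.le]
    rw [h16] at hC
    linear_combination hC + (N - m : ℝ) * hB
  have h17 : (c m : ℝ) = 0 := (mul_eq_zero.1 h15).resolve_left hNR.ne'
  exact_mod_cast h17

/-- positivity from the finite sums -/
theorem cesaro {F : ℤ → ℝ} {N : ℕ} (hF : ∀ k : ℤ, (N : ℤ) < |k| → F k = 0)
    (h : ∀ J : ℕ, 0 ≤ ∑ i ∈ range J, ∑ j ∈ range J, F ((i : ℤ) - j)) :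
    0 ≤ F 0 + ∑ k ∈ Icc 1 N, (F k + F (-k)) := by
  set D : ℕ → ℝ := fun J => ∑ i ∈ range J, ∑ j ∈ range J, F ((i : ℤ) - j) with hD
  set T : ℝ := F 0 + ∑ k ∈ Icc 1 N, (F k + F (-k)) with hT
  have hstep : ∀ J, D (J + 1) = D J + (F 0 + ∑ k ∈ Icc 1 J, (F k + F (-k))) := by
    intro J
    have h1 : D (J + 1) = ∑ i ∈ range J, (∑ j ∈ range J, F ((i : ℤ) - j) + F ((i : ℤ) - J)) +
        (∑ j ∈ range J, F ((J : ℤ) - j) + F 0) := by
      simp only [hD]
      rw [sum_range_succ]
      congr 1
      · refine sum_congr rfl fun i _ => ?_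
        rw [sum_range_succ]
      · rw [sum_range_succ, sub_self]
    have h2 : ∑ j ∈ range J, F ((J : ℤ) - j) = ∑ k ∈ Icc 1 J, F (k : ℤ) := by
      refine sum_nbij' (fun j => J - j) (fun k => J - k) ?_ ?_ ?_ ?_ ?_
      · intro j hj
        rw [mem_range] at hj
        exact mem_Icc.2 ⟨by omega, by omega⟩
      · intro k hk
        rw [mem_Icc] at hk
        exact mem_range.2 (by omega)
      · intro j hj
        rw [mem_range] at hj
        omega
      · intro k hk
        rw [mem_Icc] at hk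
        omega
      · intro j hj
        rw [mem_range] at hj
        congr 1
        omega
    have h3 : ∑ i ∈ range J, F ((i : ℤ) - J) = ∑ k ∈ Icc 1 J, F (-(k : ℤ)) := by
      refine sum_nbij' (fun j => J - j) (fun k => J - k) ?_ ?_ ?_ ?_ ?_
      · intro j hj
        rw [mem_range] at hj
        exact mem_Icc.2 ⟨by omega, by omega⟩
      · intro k hk
        rw [mem_Icc] at hk
        exact mem_range.2 (by omega)
      · intro j hj
        rw [mem_range] at hj
        omega
      · intro k hk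
        rw [mem_Icc] at hk
        omega
      · intro j hj
        rw [mem_range] at hj
        congr 1
        omega
    rw [h1, sum_add_distrib, h2, h3, sum_add_distrib]
    ring
  have hT' : ∀ J, N ≤ J → F 0 + ∑ k ∈ Icc 1 J, (F k + F (-k)) = T := by
    intro J hJ
    rw [hT]
    congr 1
    symm
    refine sum_subset (Icc_subset_Icc_right hJ) fun k hk hk' => ?_
    rw [mem_Icc] at hk hk'
    rw [hF k (by rw [abs_of_nonneg (by omega)]; omega),
      hF (-k) (by rw [abs_neg, abs_of_nonneg (by omega)]; omega), add_zero]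
  have hlin : ∀ n : ℕ, D (N + n) = D N + n * T := by
    intro n
    induction n with
    | zero => simp
    | succ n ih =>
      rw [← add_assoc, hstep, ih, hT' _ (by omega)]
      push_cast
      ring
  by_contra hneg
  push Not at hneg
  obtain ⟨n, hn⟩ := exists_nat_gt (D N / (-T))
  have h4 := h (N + n)
  have h5 : D (N + n) = D N + n * T := hlin n
  rw [div_lt_iff₀ (by linarith)] at hn
  have h6 : 0 ≤ D (N + n) := h4
  rw [h5] at h6
  linarith

end Pool.Agent.Q284.IM
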