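import Pool.Agent.Q284.IM.Hel
import Pool.Agent.Q284.IM.Cls

/-! Positive definite functions on the integers with half integral values. -/

set_option autoImplicit false

namespace Pool.Agent.Q284.IM

open Finset

theorem frm_nonneg {Λ : Type} [AddCommGroup Λ] {φ : Λ → ℝ}
    (hpd : ∀ (S : Finset Λ) (x : Λ → ℝ), 0 ≤ ∑ a ∈ S, ∑ b ∈ S, x a * x b * φ (a - b))
    (c : Λ →₀ ℝ) : 0 ≤ frm (fun a b => φ (a - b)) c c := hpd c.support c

theorem abs_le_of_pd {Λ : Type} [AddCommGroup Λ] {φ : Λ → ℝ} (hs : ∀ a, φ (-a) = φ a)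
    (hpd : ∀ (S : Finset Λ) (x : Λ → ℝ), 0 ≤ ∑ a ∈ S, ∑ b ∈ S, x a * x b * φ (a - b)) (n : Λ) :
    |φ n| ≤ φ 0 := by
  classical
  rcases eq_or_ne n 0 with rfl | hn
  · have := hpd {0} (fun _ => 1)
    simp only [sum_singleton, sub_zero, one_mul] at this
    rw [abs_of_nonneg this]
  · have h : ∀ σ : ℝ, 0 ≤ φ 0 + σ * φ n + (σ * φ n + σ * σ * φ 0) := by
      intro σ
      have h1 := hpd {0, n} (fun a => if a = 0 then 1 else σ)
      rw [sum_pair hn.symm, sum_pair hn.symm, sum_pair hn.symm] at h1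
      simp only [if_true, if_neg hn, sub_zero, zero_sub, sub_self, hs] at h1
      linarith
    have h1 := h 1
    have h2 := h (-1)
    rw [abs_le]
    constructor <;> linarith

theorem range_fin {Λ : Type} {φ : Λ → ℝ} {n : ℕ} (hn : 0 < n) {B : ℝ} (hb : ∀ a, |φ a| ≤ B)
    (hi : ∀ a, ∃ m : ℤ, n * φ a = m) : (Set.range φ).Finite := by
  have hnR : (0 : ℝ) < n := by exact_mod_cast hn
  obtain ⟨C, hC⟩ := exists_int_gt (n * B)
  refine ((Set.finite_Icc (-C) C).image fun m : ℤ => (m : ℝ) / n).subset ?_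
  rintro _ ⟨a, rfl⟩
  obtain ⟨m, hm⟩ := hi a
  refine ⟨m, ?_, ?_⟩
  · have h1 := abs_le.1 (hb a)
    have h2 : (m : ℝ) ≤ C := by
      rw [← hm]
      have := mul_le_mul_of_nonneg_left h1.2 hnR.le
      linarith
    have h3 : (-C : ℝ) ≤ m := by
      rw [← hm]
      have := mul_le_mul_of_nonneg_left h1.1 hnR.le
      linarith
    exact ⟨by exact_mod_cast h3, by exact_mod_cast h2⟩
  · simp only
    rw [← hm]
    field_simp

/-- **Infinite support.** -/
theorem long {Λ : Type} [AddCommGroup Λ] {φ : Λ → ℝ} (hs : ∀ a, φ (-a) = φ a)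
    (hpd : ∀ (S : Finset Λ) (x : Λ → ℝ), 0 ≤ ∑ a ∈ S, ∑ b ∈ S, x a * x b * φ (a - b))
    {n : ℕ} (hn : 0 < n) (hi : ∀ a, ∃ m : ℤ, n * φ a = m) (hinf : {a | φ a ≠ 0}.Infinite) :
    ∃ s : ℝ, 1 / n ≤ s ∧ ∃ d : Λ, d ≠ 0 ∧ ∀ J : ℕ, ∃ g : Λ, ∀ j : ℤ, |j| ≤ J →
      φ (g + j • d) = s := by
  have hnR : (0 : ℝ) < n := by exact_mod_cast hn
  obtain ⟨H, i1, i2, i3, e, he⟩ := gns (fun a b : Λ => φ (a - b))
    (fun a b => by rw [← hs, neg_sub]) (frm_nonneg hpd)
  obtain ⟨s, hs1, hs2, d, hd, hJ⟩ := helson (range_fin hn (abs_le_of_pd hs hpd) hi) he hinf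
  refine ⟨s, ?_, d, hd, hJ⟩
  obtain ⟨a, rfl⟩ := hs1
  obtain ⟨m, hm⟩ := hi a
  have h1 : (0 : ℝ) < m := by
    rw [← hm]
    positivity
  have h2 : (1 : ℝ) ≤ m := by exact_mod_cast (by exact_mod_cast h1 : 0 < m)
  rw [div_le_iff₀ hnR, mul_comm, hm]
  exact h2

/-- **Finite support.** -/
theorem fin_case {φ : ℤ → ℝ} (h0 : φ 0 = 1) (hs : ∀ a, φ (-a) = φ a)
    (hpd : ∀ (S : Finset ℤ) (x : ℤ → ℝ), 0 ≤ ∑ a ∈ S, ∑ b ∈ S, x a * x b * φ (a - b))
    (hi : ∀ a, ∃ m : ℤ, 2 * φ a = m) (hinf : {a | φ a ≠ 0}.Finite) :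
    ∃ N : ℕ, 0 < N ∧ ∃ σ : ℤ, (σ = 0 ∨ σ = 1 ∨ σ = -1) ∧
      ∀ n : ℤ, φ n = (if n = 0 then 1 else 0) + if |n| = N then (σ : ℝ) / 2 else 0 := by
  classical
  -- the largest element of the support
  set S : Finset ℕ := (hinf.toFinset.image Int.natAbs).erase 0 with hS
  have hmem : ∀ n : ℤ, n ≠ 0 → φ n ≠ 0 → n.natAbs ∈ S := by
    intro n hn hφ
    rw [hS, mem_erase]
    refine ⟨Int.natAbs_ne_zero.2 hn, mem_image.2 ⟨n, ?_, rfl⟩⟩
    rw [Set.Finite.mem_toFinset]
    exact hφ
  rcases S.eq_empty_or_nonempty with he | hne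
  · refine ⟨1, one_pos, 0, Or.inl rfl, fun n => ?_⟩
    rcases eq_or_ne n 0 with rfl | hn
    · rw [h0]
      simp
    · have : φ n = 0 := by
        by_contra h
        have := hmem n hn h
        rw [he] at this
        simp at this
      rw [this, if_neg hn]
      simp
  · set N := S.max' hne with hNdef
    have hNS : N ∈ S := S.max'_mem hne
    rw [hS, mem_erase, mem_image] at hNS
    obtain ⟨hN0, a, ha, haN⟩ := hNS
    rw [Set.Finite.mem_toFinset] at ha
    have hNpos : 0 < N := Nat.pos_of_ne_zero hN0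
    have hφN : φ N ≠ 0 := by
      have ha' : φ a ≠ 0 := ha
      rcases Int.natAbs_eq a with h | h
      · rw [h, haN] at ha'
        exact ha'
      · rw [h, haN, hs] at ha'
        exact ha'
    have hz : ∀ n : ℤ, (N : ℤ) < |n| → φ n = 0 := by
      intro n hn
      by_contra h
      have h1 := S.le_max' _ (hmem n (by rintro rfl; simp at hn; omega) h)
      rw [← hNdef] at h1
      rw [Int.abs_eq_natAbs] at hn
      omega
    choose c hc using fun k : ℕ => hi (k : ℤ)
    have hcφ : ∀ k : ℕ, φ k = (c k : ℝ) / 2 := fun k => by rw [← hc k]; ring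
    have hpos : ∀ t, 0 ≤ hp c N t := by
      intro t
      have h1 := cesaro (F := fun k : ℤ => φ k * Real.cos (k * t)) (N := N)
        (fun k hk => by rw [hz k hk, zero_mul]) (fun J => by
          have h2 : ∀ x : ℕ → ℝ, 0 ≤ ∑ i ∈ range J, ∑ j ∈ range J,
              x i * x j * φ ((i : ℤ) - j) := by
            intro x
            have h3 := hpd ((range J).image fun i : ℕ => (i : ℤ)) (fun a => x a.toNat)
            have hinj : ∀ i ∈ range J, ∀ j ∈ range J, (i : ℤ) = j → i = j :=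
              fun i _ j _ h => by exact_mod_cast h
            rw [sum_image hinj] at h3
            simp_rw [sum_image hinj] at h3
            simpa using h3
          have h4 := add_nonneg (h2 fun i => Real.cos (i * t)) (h2 fun i => Real.sin (i * t))
          rw [← sum_add_distrib] at h4
          refine h4.trans (le_of_eq (sum_congr rfl fun i _ => ?_))
          rw [← sum_add_distrib]
          refine sum_congr rfl fun j _ => ?_
          push_cast
          rw [sub_mul, Real.cos_sub]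
          ring)
      refine h1.trans (le_of_eq ?_)
      unfold hp
      simp only [Int.cast_zero, zero_mul, Real.cos_zero, h0, mul_one]
      congr 1
      refine sum_congr rfl fun k _ => ?_
      rw [hs, hcφ]
      push_cast
      rw [neg_mul, Real.cos_neg]
      ring
    have hcN : c N ≠ 0 := by
      intro h
      rw [hcφ, h] at hφN
      simp at hφN
    obtain ⟨h1, h2⟩ := cls hNpos hcN hpos
    refine ⟨N, hNpos, c N, Or.inr h1, fun n => ?_⟩
    have hn : φ n = φ n.natAbs := by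
      rcases Int.natAbs_eq n with h | h
      · rw [← h]
      · conv_lhs => rw [h]
        rw [hs]
    rw [Int.abs_eq_natAbs]
    rcases eq_or_ne n 0 with rfl | hn0
    · rw [h0, if_pos rfl, if_neg (by simp only [Int.natAbs_zero]; omega), add_zero]
    · rw [if_neg hn0, zero_add]
      split_ifs with h
      · rw [hn, ← hcφ]
        congr 1
      · rcases lt_or_gt_of_ne (show n.natAbs ≠ N by omega) with h3 | h3
        · rw [hn, hcφ, h2 _ (Int.natAbs_pos.2 hn0) h3]
          simp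
        · exact hz n (by rw [Int.abs_eq_natAbs]; omega)

end Pool.Agent.Q284.IM
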