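import Pool.Agent.Q284.IM.Per
import Pool.Agent.Q284.IM.Dich

/-! Positive definite functions on the integers with finitely many values are sums of a periodic one and
one with finite support. -/

set_option autoImplicit false

namespace Pool.Agent.Q284.IM

open Filter Topology

/-- the periodic part -/
noncomputable def pp (φ : ℤ → ℝ) (K P : ℕ) (n : ℤ) : ℝ := φ (n + P * (n.natAbs + K))

section

variable {φ : ℤ → ℝ} {K P : ℕ} (hP : 0 < P) (hper : ∀ n : ℤ, (K : ℤ) ≤ n → φ (n + P) = φ n)

include hper in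
theorem shift_nat {n : ℤ} (hn : (K : ℤ) ≤ n) (k : ℕ) : φ (n + P * k) = φ n := by
  induction k with
  | zero => simp
  | succ k ih =>
    have h1 := hper (n + P * k) (by
      have : (0 : ℤ) ≤ P * k := by positivity
      linarith)
    push_cast
    rw [mul_add, mul_one, ← add_assoc, h1, ih]

include hP in
theorem pp_ge (n : ℤ) : (K : ℤ) ≤ n + P * (n.natAbs + K) := by
  have h1 : (1 : ℤ) ≤ P := by exact_mod_cast hP
  have h2 : (1 : ℤ) * (n.natAbs + K) ≤ P * (n.natAbs + K) :=
    mul_le_mul_of_nonneg_right h1 (by positivity)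
  omega

include hP hper

theorem pp_eq {n : ℤ} {k : ℤ} (hk : (K : ℤ) ≤ n + P * k) : φ (n + P * k) = pp φ K P n := by
  unfold pp
  rcases le_total k (n.natAbs + K) with h | h
  · obtain ⟨l, hl⟩ := Int.le.dest h
    have h1 := shift_nat hper hk l
    rw [← h1]
    congr 1
    rw [← hl]
    ring
  · obtain ⟨l, hl⟩ := Int.le.dest h
    have h1 := shift_nat hper (pp_ge (K := K) hP n) l
    rw [← h1]
    congr 1
    rw [← hl]
    ring

theorem pp_of_ge {n : ℤ} (hn : (K : ℤ) ≤ n) : pp φ K P n = φ n := by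
  have := pp_eq hP hper (n := n) (k := 0) (by simpa using hn)
  rw [← this]
  simp

theorem pp_periodic (n : ℤ) : pp φ K P (n + P) = pp φ K P n := by
  have h1 := pp_ge (K := K) hP (n + P)
  have e : n + P + P * ((n + P).natAbs + K) = n + P * ((n + P).natAbs + K + 1) := by ring
  have h2 := pp_eq hP hper (n := n) (k := (n + P).natAbs + K + 1) (by rw [← e]; exact h1)
  rw [← h2]
  unfold pp
  rw [e]

theorem pp_periodic_nat (n : ℤ) (k : ℕ) : pp φ K P (n + P * k) = pp φ K P n := by
  induction k with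
  | zero => simp
  | succ k ih =>
    push_cast
    rw [mul_add, mul_one, ← add_assoc, pp_periodic hP hper, ih]

variable {H : Type} [NormedAddCommGroup H] [InnerProductSpace ℝ H] [CompleteSpace H] {e : ℤ → H}
  (hG : ∀ a b, inner ℝ (e a) (e b) = φ (a - b))

include hG

/-- the projection to the periodic vectors -/
theorem exists_proj : ∃ w : ℤ → H, (∀ a j, inner ℝ (w a) (e j) = pp φ K P (a - j)) ∧
    ∀ a b, inner ℝ (w a) (w b) = pp φ K P (b - a) := by
  set V : Ultrafilter ℕ := Filter.hyperfilter ℕ with hV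
  have hVt : (V : Filter ℕ) ≤ atTop := by
    rw [hV, ← Nat.cofinite_eq_atTop]
    exact Filter.hyperfilter_le_cofinite
  have h0 : ∀ a : ℤ, ∃ w : H, ∀ h, Tendsto (fun k : ℕ => inner ℝ (e (a + P * k)) h) V
      (𝓝 (inner ℝ w h)) := fun a => weak_lim V (fun k : ℕ => e (a + P * k))
        (fun k => (norm_e hG (a + P * k)).le)
  choose w hw using h0
  have h1 : ∀ a j, inner ℝ (w a) (e j) = pp φ K P (a - j) := by
    intro a j
    refine tendsto_nhds_unique (hw a (e j)) (tendsto_const_nhds.congr' ?_)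
    filter_upwards [hVt (eventually_ge_atTop ((a - j).natAbs + K))] with k hk
    rw [hG]
    have h2 : (K : ℤ) ≤ a - j + P * k := by
      refine (pp_ge (K := K) hP (a - j)).trans ?_
      have : (P : ℤ) * ((a - j).natAbs + K) ≤ P * k :=
        mul_le_mul_of_nonneg_left (by exact_mod_cast hk) (by positivity)
      linarith
    rw [← pp_eq hP hper h2]
    congr 1
    ring
  refine ⟨w, h1, fun a b => ?_⟩
  refine tendsto_nhds_unique (hw a (w b)) (tendsto_const_nhds.congr fun k => ?_)
  rw [real_inner_comm, h1]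
  have h3 := pp_periodic_nat hP hper (b - (a + P * k)) k
  rw [← h3]
  congr 1
  ring

/-- the periodic part is even -/
theorem pp_even (n : ℤ) : pp φ K P (-n) = pp φ K P n := by
  obtain ⟨w, -, h⟩ := exists_proj hP hper hG
  have h1 := h 0 n
  have h2 := h n 0
  rw [sub_zero] at h1
  rw [zero_sub] at h2
  rw [← h1, ← h2, real_inner_comm]

/-- the periodic part is positive definite -/
theorem pp_pd (S : Finset ℤ) (x : ℤ → ℝ) :
    0 ≤ ∑ a ∈ S, ∑ b ∈ S, x a * x b * pp φ K P (a - b) := by
  obtain ⟨w, -, h⟩ := exists_proj hP hper hG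
  have h1 : 0 ≤ inner ℝ (∑ a ∈ S, x a • w a) (∑ a ∈ S, x a • w a) := real_inner_self_nonneg
  refine h1.trans (le_of_eq ?_)
  rw [sum_inner]
  refine Finset.sum_congr rfl fun a _ => ?_
  rw [inner_sum]
  refine Finset.sum_congr rfl fun b _ => ?_
  rw [real_inner_smul_left, real_inner_smul_right, h, ← pp_even hP hper hG (b - a), neg_sub]
  ring

/-- the difference is positive definite -/
theorem df_pd (S : Finset ℤ) (x : ℤ → ℝ) :
    0 ≤ ∑ a ∈ S, ∑ b ∈ S, x a * x b * (φ (a - b) - pp φ K P (a - b)) := by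
  obtain ⟨w, h', h⟩ := exists_proj hP hper hG
  have h1 : 0 ≤ inner ℝ (∑ a ∈ S, x a • (e a - w a)) (∑ a ∈ S, x a • (e a - w a)) :=
    real_inner_self_nonneg
  refine h1.trans (le_of_eq ?_)
  rw [sum_inner]
  refine Finset.sum_congr rfl fun a _ => ?_
  rw [inner_sum]
  refine Finset.sum_congr rfl fun b _ => ?_
  rw [real_inner_smul_left, real_inner_smul_right, inner_sub_left, inner_sub_right,
    inner_sub_right, hG, h, h', real_inner_comm, h', ← pp_even hP hper hG (b - a), neg_sub]
  ring

end

end Pool.Agent.Q284.IM
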