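import Mathlib

/-! A Hilbert space for a positive semidefinite kernel, and weak limits along ultrafilters. -/

set_option autoImplicit false

namespace Pool.Agent.Q284.IM

open Filter Topology

/-- the form of the kernel -/
noncomputable def frm {ι : Type} (K : ι → ι → ℝ) (f g : ι →₀ ℝ) : ℝ :=
  f.sum fun a x => g.sum fun b y => x * y * K a b

theorem frm_symm {ι : Type} {K : ι → ι → ℝ} (hs : ∀ a b, K a b = K b a) (f g : ι →₀ ℝ) :
    frm K g f = frm K f g := by
  unfold frm Finsupp.sum
  rw [Finset.sum_comm]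
  refine Finset.sum_congr rfl fun a _ => Finset.sum_congr rfl fun b _ => ?_
  simp only
  rw [hs a b]
  ring

theorem frm_add {ι : Type} {K : ι → ι → ℝ} (f g h : ι →₀ ℝ) :
    frm K (f + g) h = frm K f h + frm K g h := by
  classical
  unfold frm
  refine Finsupp.sum_add_index' (fun a => ?_) (fun a x y => ?_)
  · simp
  · rw [← Finsupp.sum_add]
    refine Finsupp.sum_congr fun b _ => ?_
    ring

theorem frm_smul {ι : Type} {K : ι → ι → ℝ} (f h : ι →₀ ℝ) (r : ℝ) :
    frm K (r • f) h = r * frm K f h := by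
  classical
  unfold frm
  rw [Finsupp.sum_smul_index' (by simp), Finsupp.mul_sum]
  refine Finsupp.sum_congr fun a _ => ?_
  rw [Finsupp.mul_sum]
  refine Finsupp.sum_congr fun b _ => ?_
  rw [smul_eq_mul]
  ring

/-- **A Hilbert space for a kernel.** -/
theorem gns {ι : Type} (K : ι → ι → ℝ) (hs : ∀ a b, K a b = K b a)
    (hp : ∀ c : ι →₀ ℝ, 0 ≤ frm K c c) :
    ∃ (H : Type) (_ : NormedAddCommGroup H) (_ : InnerProductSpace ℝ H) (_ : CompleteSpace H)
      (e : ι → H), ∀ a b, inner ℝ (e a) (e b) = K a b := by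
  let core : PreInnerProductSpace.Core ℝ (ι →₀ ℝ) :=
    { inner := fun f g => frm K f g
      conj_inner_symm := fun f g => by
        simp only [conj_trivial]
        exact frm_symm hs f g
      re_inner_nonneg := fun f => by
        simpa using hp f
      add_left := fun f g h => frm_add f g h
      smul_left := fun f h r => by
        simp only [conj_trivial]
        exact frm_smul f h r }
  let i1 : SeminormedAddCommGroup (ι →₀ ℝ) :=
    InnerProductSpace.Core.toSeminormedAddCommGroup (𝕜 := ℝ) (c := core)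
  let i2 : InnerProductSpace ℝ (ι →₀ ℝ) := InnerProductSpace.ofCore core
  refine ⟨UniformSpace.Completion (ι →₀ ℝ), inferInstance, inferInstance, inferInstance,
    fun a => ((Finsupp.single a (1 : ℝ) : ι →₀ ℝ) : UniformSpace.Completion (ι →₀ ℝ)),
    fun a b => ?_⟩
  rw [UniformSpace.Completion.inner_coe]
  have h1 : inner ℝ (Finsupp.single a (1 : ℝ) : ι →₀ ℝ) (Finsupp.single b (1 : ℝ)) =
      frm K (Finsupp.single a 1) (Finsupp.single b 1) := rfl
  rw [h1]
  unfold frm
  rw [Finsupp.sum_single_index (by simp), Finsupp.sum_single_index (by simp)]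
  ring

variable {H : Type} [NormedAddCommGroup H] [InnerProductSpace ℝ H] [CompleteSpace H]

/-- weak limits along ultrafilters -/
theorem weak_lim {ι : Type} (V : Ultrafilter ι) (x : ι → H) {B : ℝ} (hx : ∀ i, ‖x i‖ ≤ B) :
    ∃ w : H, ∀ h : H, Tendsto (fun i => inner ℝ (x i) h) V (𝓝 (inner ℝ w h)) := by
  let D : ι → WeakDual ℝ H := fun i =>
    StrongDual.toWeakDual (InnerProductSpace.toDual ℝ H (x i))
  have hc := WeakDual.isCompact_closedBall (𝕜 := ℝ) (E := H) 0 B
  have hmem : ∀ i, D i ∈ (WeakDual.toStrongDual ⁻¹' Metric.closedBall (0 : StrongDual ℝ H) B) := by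
    intro i
    simp only [Set.mem_preimage, Metric.mem_closedBall, dist_zero_right, D]
    have h1 : WeakDual.toStrongDual (StrongDual.toWeakDual (InnerProductSpace.toDual ℝ H (x i))) =
        InnerProductSpace.toDual ℝ H (x i) := rfl
    rw [h1, LinearIsometryEquiv.norm_map]
    exact hx i
  obtain ⟨a, -, ha⟩ := hc.ultrafilter_le_nhds (V.map D) (by
    rw [le_principal_iff]
    exact Filter.mem_map.2 (Filter.univ_mem' hmem))
  have hT : Tendsto D V (𝓝 a) := ha
  refine ⟨(InnerProductSpace.toDual ℝ H).symm (WeakDual.toStrongDual a), fun h => ?_⟩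
  have h2 : Tendsto (fun i => (D i) h) V (𝓝 (a h)) :=
    ((WeakDual.eval_continuous h).tendsto a).comp hT
  have h3 : inner ℝ ((InnerProductSpace.toDual ℝ H).symm (WeakDual.toStrongDual a)) h = a h := by
    rw [InnerProductSpace.toDual_symm_apply]
    rfl
  rw [h3]
  exact h2

end Pool.Agent.Q284.IM
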