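import Pool.Agent.Q284.IM.Gns

/-! Positive definite functions on an abelian group with finitely many values: either the support is
finite or the function is constant, and not zero, on long progressions with a fixed difference. -/

set_option autoImplicit false

namespace Pool.Agent.Q284.IM

open Filter Topology

/-- the limit of a function with finitely many values -/
noncomputable def lm {ι : Type} (V : Ultrafilter ι) (f : ι → ℝ) : ℝ :=
  open Classical in if h : ∃ x, ∀ᶠ i in (V : Filter ι), f i = x then h.choose else 0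

theorem lm_spec {ι : Type} (V : Ultrafilter ι) {f : ι → ℝ} (hf : (Set.range f).Finite) :
    ∀ᶠ i in (V : Filter ι), f i = lm V f := by
  have h : ∃ x, ∀ᶠ i in (V : Filter ι), f i = x := by
    have h1 : ∀ᶠ i in (V : Filter ι), ∃ x ∈ Set.range f, f i = x :=
      Eventually.of_forall fun i => ⟨f i, ⟨i, rfl⟩, rfl⟩
    obtain ⟨x, -, hx⟩ := (Ultrafilter.eventually_exists_mem_iff hf).1 h1
    exact ⟨x, hx⟩
  unfold lm
  rw [dif_pos h]
  exact h.choose_spec

theorem lm_mem {ι : Type} (V : Ultrafilter ι) {f : ι → ℝ} (hf : (Set.range f).Finite) :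
    lm V f ∈ Set.range f := by
  obtain ⟨i, hi⟩ := (lm_spec V hf).exists
  exact ⟨i, hi⟩

theorem lm_eq {ι : Type} (V : Ultrafilter ι) {f : ι → ℝ} (hf : (Set.range f).Finite) {x : ℝ}
    (h : ∀ᶠ i in (V : Filter ι), f i = x) : lm V f = x := by
  obtain ⟨i, h1, h2⟩ := ((lm_spec V hf).and h).exists
  rw [← h1, h2]

section

variable {Λ : Type} [AddCommGroup Λ] {φ : Λ → ℝ} (hR : (Set.range φ).Finite)

/-- first limit -/
noncomputable def aa (φ : Λ → ℝ) (V : Ultrafilter Λ) (k : Λ) : ℝ := lm V fun n => φ (n + k)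

/-- second limit -/
noncomputable def ps (φ : Λ → ℝ) (V : Ultrafilter Λ) (k : Λ) : ℝ := lm V fun m => aa φ V (k - m)

include hR

theorem range_shift (k : Λ) : (Set.range fun n => φ (n + k)).Finite :=
  hR.subset (by rintro _ ⟨n, rfl⟩; exact ⟨n + k, rfl⟩)

theorem aa_spec (V : Ultrafilter Λ) (k : Λ) : ∀ᶠ n in (V : Filter Λ), φ (n + k) = aa φ V k :=
  lm_spec V (range_shift hR k)

theorem aa_mem (V : Ultrafilter Λ) (k : Λ) : aa φ V k ∈ Set.range φ := by
  obtain ⟨n, hn⟩ := lm_mem V (range_shift hR k)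
  exact ⟨n + k, hn⟩

theorem range_aa (V : Ultrafilter Λ) (k : Λ) : (Set.range fun m => aa φ V (k - m)).Finite :=
  hR.subset (by rintro _ ⟨m, rfl⟩; exact aa_mem hR V _)

theorem ps_spec (V : Ultrafilter Λ) (k : Λ) :
    ∀ᶠ m in (V : Filter Λ), aa φ V (k - m) = ps φ V k := lm_spec V (range_aa hR V k)

theorem ps_mem (V : Ultrafilter Λ) (k : Λ) : ps φ V k ∈ Set.range φ := by
  obtain ⟨m, hm⟩ := lm_mem V (range_aa hR V k)
  have := aa_mem hR V (k - m)
  rw [show aa φ V (k - m) = ps φ V k from hm] at this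
  exact this

variable {H : Type} [NormedAddCommGroup H] [InnerProductSpace ℝ H] [CompleteSpace H] {e : Λ → H}
  (hG : ∀ a b, inner ℝ (e a) (e b) = φ (a - b))

include hG

omit hR [CompleteSpace H] in
theorem norm_e (a : Λ) : ‖e a‖ = Real.sqrt (φ 0) := by
  rw [← Real.sqrt_sq (norm_nonneg (e a)), ← real_inner_self_eq_norm_sq, hG, sub_self]

/-- the weak limits -/
theorem exists_w (V : Ultrafilter Λ) : ∃ w : Λ → H,
    (∀ k h, Tendsto (fun n => inner ℝ (e (n + k)) h) V (𝓝 (inner ℝ (w k) h))) ∧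
    (∀ k j, inner ℝ (w k) (e j) = aa φ V (k - j)) ∧
    (∀ k l, inner ℝ (w k) (w l) = ps φ V (k - l)) := by
  have h0 : ∀ k, ∃ w : H, ∀ h, Tendsto (fun n => inner ℝ (e (n + k)) h) V (𝓝 (inner ℝ w h)) :=
    fun k => weak_lim V (fun n => e (n + k)) (fun n => (norm_e hG (n + k)).le)
  choose w hw using h0
  have h1 : ∀ k j, inner ℝ (w k) (e j) = aa φ V (k - j) := by
    intro k j
    refine tendsto_nhds_unique (hw k (e j)) ?_
    refine tendsto_const_nhds.congr' ?_
    filter_upwards [aa_spec hR V (k - j)] with n hn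
    rw [hG, ← hn]
    congr 1
    abel
  refine ⟨w, hw, h1, fun k l => ?_⟩
  have h2 := hw l (w k)
  rw [real_inner_comm] at h2
  refine tendsto_nhds_unique h2 ?_
  refine tendsto_const_nhds.congr' ?_
  filter_upwards [ps_spec hR V (k - l)] with m hm
  rw [real_inner_comm, h1, ← hm]
  congr 1
  abel

theorem ps_pos (V : Ultrafilter Λ) (hV : ∀ᶠ n in (V : Filter Λ), φ n ≠ 0) : 0 < ps φ V 0 := by
  obtain ⟨w, -, h1, h2⟩ := exists_w hR hG V
  have h3 : inner ℝ (w 0) (e 0) ≠ 0 := by
    rw [h1, sub_zero]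
    obtain ⟨n, hn, hn'⟩ := ((aa_spec hR V 0).and hV).exists
    rw [← hn, add_zero]
    exact hn'
  have h4 : w 0 ≠ 0 := by
    rintro h
    rw [h, inner_zero_left] at h3
    exact h3 rfl
  have h5 := h2 0 0
  rw [sub_zero] at h5
  rw [← h5]
  exact real_inner_self_pos.2 h4

/-- **Positive definite functions with finitely many values.** -/
theorem helson (hinf : {a | φ a ≠ 0}.Infinite) : ∃ s : ℝ, s ∈ Set.range φ ∧ 0 < s ∧
    ∃ d : Λ, d ≠ 0 ∧ ∀ J : ℕ, ∃ g : Λ, ∀ j : ℤ, |j| ≤ J → φ (g + j • d) = s := by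
  classical
  -- the good ultrafilters
  let Gd : Ultrafilter Λ → Prop := fun V => (V : Filter Λ) ≤ cofinite ∧ ∀ᶠ n in (V : Filter Λ), φ n ≠ 0
  have hex : ∃ V, Gd V := by
    have := hinf.cofinite_inf_principal_neBot
    refine ⟨Ultrafilter.of (cofinite ⊓ 𝓟 {a | φ a ≠ 0}), ?_, ?_⟩
    · exact (Ultrafilter.of_le _).trans inf_le_left
    · exact (Ultrafilter.of_le _).trans inf_le_right (mem_principal_self _)
  -- one with the smallest norm
  have hmin : ∃ V, Gd V ∧ ∀ V', Gd V' → ps φ V 0 ≤ ps φ V' 0 := by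
    let S : Set ℝ := {x | ∃ V, Gd V ∧ ps φ V 0 = x}
    have hS : S.Finite := hR.subset (by rintro _ ⟨V, -, rfl⟩; exact ps_mem hR V 0)
    obtain ⟨V₀, hV₀⟩ := hex
    obtain ⟨x, ⟨V, hV, hx⟩, hle⟩ := Set.exists_min_image S id hS ⟨_, ⟨V₀, hV₀, rfl⟩⟩
    exact ⟨V, hV, fun V' hV' => by
      rw [hx]
      exact hle _ ⟨V', hV', rfl⟩⟩
  obtain ⟨V, hV, hVmin⟩ := hmin
  obtain ⟨w, hw, h1, h2⟩ := exists_w hR hG V
  set s : ℝ := ps φ V 0 with hs
  have hspos : 0 < s := ps_pos hR hG V hV.2
  -- the set of the shifts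
  have hK : {k | aa φ V k ≠ 0}.Infinite := by
    intro hfin
    have h3 := ps_spec hR V 0
    have h4 : ∀ᶠ m in (V : Filter Λ), (0 : Λ) - m ∉ {k | aa φ V k ≠ 0} := by
      have h5 : ((fun m : Λ => 0 - m) ⁻¹' {k | aa φ V k ≠ 0}).Finite :=
        hfin.preimage (sub_right_injective.injOn)
      exact hV.1 h5.compl_mem_cofinite
    obtain ⟨m, hm, hm'⟩ := (h3.and h4).exists
    rw [Set.mem_ofPred_eq, not_not, hm] at hm'
    exact hspos.ne' hm'
  have := hK.cofinite_inf_principal_neBot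
  set V' : Ultrafilter Λ := Ultrafilter.of (cofinite ⊓ 𝓟 {k | aa φ V k ≠ 0}) with hV'
  have hV'1 : (V' : Filter Λ) ≤ cofinite := (Ultrafilter.of_le _).trans inf_le_left
  have hV'2 : ∀ᶠ k in (V' : Filter Λ), aa φ V k ≠ 0 :=
    (Ultrafilter.of_le _).trans inf_le_right (mem_principal_self _)
  -- the sum of the two ultrafilters
  set W : Ultrafilter Λ := V'.bind fun k => V.map fun n => n + k with hW
  have hWe : ∀ p : Λ → Prop, (∀ᶠ x in (W : Filter Λ), p x) ↔
      ∀ᶠ k in (V' : Filter Λ), ∀ᶠ n in (V : Filter Λ), p (n + k) := by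
    intro p
    change (∀ᶠ x in Filter.bind (V' : Filter Λ) fun k => ((V.map fun n => n + k : Ultrafilter Λ) :
      Filter Λ), p x) ↔ _
    rw [Filter.eventually_bind]
    simp only [Ultrafilter.coe_map, Filter.eventually_map]
  have hGW : Gd W := by
    constructor
    · intro t ht
      have h3 : ∀ᶠ x in (W : Filter Λ), x ∈ t := by
        rw [hWe]
        refine Eventually.of_forall fun k => ?_
        have h4 : ((fun n : Λ => n + k) ⁻¹' tᶜ).Finite :=
          (mem_cofinite.1 ht).preimage ((add_left_injective k).injOn)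
        have h5 := hV.1 h4.compl_mem_cofinite
        filter_upwards [h5] with n hn
        by_contra h6
        exact hn h6
      exact h3
    · rw [hWe]
      filter_upwards [hV'2] with k hk
      filter_upwards [aa_spec hR V k] with n hn
      rw [hn]
      exact hk
  -- the weak limit along the second ultrafilter
  have hwn : ∀ k, ‖w k‖ = Real.sqrt s := by
    intro k
    rw [← Real.sqrt_sq (norm_nonneg (w k)), ← real_inner_self_eq_norm_sq, h2, sub_self]
  obtain ⟨τ, hτ⟩ := weak_lim V' w (fun k => (hwn k).le)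
  obtain ⟨w', hw', -, h2'⟩ := exists_w hR hG W
  have hww : w' 0 = τ := by
    refine ext_inner_right ℝ fun h => ?_
    by_contra hne
    have hδ : 0 < |inner ℝ (w' 0) h - inner ℝ τ h| / 2 := by
      have := abs_pos.2 (sub_ne_zero.2 hne)
      linarith
    have h3 := hw' 0 h
    simp only [add_zero] at h3
    have h4 := (Metric.tendsto_nhds.1 h3) _ hδ
    rw [hWe] at h4
    have h5 : ∀ᶠ k in (V' : Filter Λ), dist (inner ℝ (w k) h) (inner ℝ (w' 0) h) ≤
        |inner ℝ (w' 0) h - inner ℝ τ h| / 2 := by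
      filter_upwards [h4] with k hk
      refine le_of_tendsto ((hw k h).dist tendsto_const_nhds) ?_
      filter_upwards [hk] with n hn
      exact hn.le
    have h6 := le_of_tendsto ((hτ h).dist tendsto_const_nhds) h5
    rw [dist_comm, Real.dist_eq] at h6
    linarith
  have hτs : s ≤ inner ℝ τ τ := by
    rw [← hww, h2', sub_self]
    exact hVmin W hGW
  -- a gap of the values
  obtain ⟨δ, hδ, hgap⟩ : ∃ δ : ℝ, 0 < δ ∧ ∀ x ∈ Set.range φ, s - δ < x → s ≤ x := by
    have hfin : (Set.range φ ∩ {x | x < s}).Finite := hR.subset Set.inter_subset_left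
    rcases (Set.range φ ∩ {x | x < s}).eq_empty_or_nonempty with he | hne
    · refine ⟨1, one_pos, fun x hx _ => ?_⟩
      by_contra hlt
      have : x ∈ Set.range φ ∩ {x | x < s} := ⟨hx, not_le.1 hlt⟩
      rw [he] at this
      exact this
    · obtain ⟨y, hy, hmax⟩ := Set.exists_max_image _ id hfin hne
      refine ⟨s - y, sub_pos.2 hy.2, fun x hx hlt => ?_⟩
      by_contra hlt'
      have := hmax x ⟨hx, not_le.1 hlt'⟩
      simp only [id] at this
      linarith
  have h7 : ∀ᶠ l in (V' : Filter Λ), s - δ < inner ℝ (w l) τ :=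
    (hτ τ).eventually (lt_mem_nhds (by linarith))
  obtain ⟨l, hl⟩ := h7.exists
  have h8 : ∀ᶠ k in (V' : Filter Λ), s - δ < inner ℝ (w k) (w l) := by
    rw [real_inner_comm] at hl
    exact (hτ (w l)).eventually (lt_mem_nhds hl)
  have h9 : ∀ᶠ k in (V' : Filter Λ), k ≠ l := hV'1 (by
    have : ({l} : Set Λ).Finite := Set.finite_singleton l
    filter_upwards [this.compl_mem_cofinite] with k hk
    exact hk)
  obtain ⟨k, hk, hkl⟩ := (h8.and h9).exists
  have hsle : ∀ k, ps φ V k ≤ s := by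
    intro k
    have h10 := real_inner_le_norm (w k) (w 0)
    rw [h2, sub_zero, hwn, hwn, Real.mul_self_sqrt hspos.le] at h10
    exact h10
  have hd : ps φ V (k - l) = s := by
    refine le_antisymm (hsle _) (hgap _ (ps_mem hR V _) ?_)
    rw [← h2]
    exact hk
  have hper : Function.Periodic w (k - l) := by
    intro j
    have h10 : ‖w (j + (k - l)) - w j‖ ^ 2 = 0 := by
      rw [norm_sub_sq_real, ← real_inner_self_eq_norm_sq, ← real_inner_self_eq_norm_sq, h2, h2, h2,
        sub_self, sub_self, show j + (k - l) - j = k - l by abel, hd]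
      ring
    exact sub_eq_zero.1 (norm_eq_zero.1 (pow_eq_zero_iff (two_ne_zero)|>.1 h10))
  have hjd : ∀ j : ℤ, ps φ V (j • (k - l)) = s := by
    intro j
    have h10 := h2 (j • (k - l)) 0
    rw [sub_zero, hper.zsmul_eq] at h10
    rw [← h10, h2, sub_zero]
  refine ⟨s, ps_mem hR V 0, hspos, k - l, sub_ne_zero.2 hkl, fun J => ?_⟩
  have h11 : ∀ᶠ m in (V : Filter Λ), ∀ j ∈ Finset.Icc (-(J : ℤ)) J,
      aa φ V (j • (k - l) - m) = s := by
    rw [Filter.eventually_all_finset]
    intro j _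
    filter_upwards [ps_spec hR V (j • (k - l))] with m hm
    rw [hm, hjd]
  obtain ⟨m, hm⟩ := h11.exists
  have h12 : ∀ᶠ n in (V : Filter Λ), ∀ j ∈ Finset.Icc (-(J : ℤ)) J,
      φ (n + (j • (k - l) - m)) = s := by
    rw [Filter.eventually_all_finset]
    intro j hj
    filter_upwards [aa_spec hR V (j • (k - l) - m)] with n hn
    rw [hn, hm j hj]
  obtain ⟨n, hn⟩ := h12.exists
  refine ⟨n - m, fun j hj => ?_⟩
  have h13 := hn j (by
    rw [abs_le] at hj
    exact Finset.mem_Icc.2 hj)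
  rw [← h13]
  congr 1
  abel

end

end Pool.Agent.Q284.IM
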