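import Pool.Agent.Q284.IM.App
import Pool.Agent.Q284.IM.Cls

/-! The model laws. -/

set_option autoImplicit false

namespace Pool.Agent.Q284.IM

open Finset intervalIntegral

theorem int_cos (k : ℤ) : ∫ t in (0 : ℝ)..Real.pi, Real.cos (k * t) =
    if k = 0 then Real.pi else 0 := by
  split_ifs with h
  · subst h
    simp
  · have hk : (k : ℝ) ≠ 0 := by exact_mod_cast h
    rw [intervalIntegral.integral_comp_mul_left _ hk, integral_cos, mul_zero, Real.sin_zero,
      sub_zero, Real.sin_int_mul_pi, smul_zero]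

/-- the continuous law -/
noncomputable def JC (N : ℕ) (σ : ℤ) (g : ℝ → ℝ) : ℝ :=
  Real.pi⁻¹ * ∫ t in (0 : ℝ)..Real.pi, g t * (1 + σ * Real.cos (N * t))

/-- the mixed law -/
noncomputable def JB (d κ : ℕ) (g : ℝ → ℝ) : ℝ :=
  1 / 2 * (Real.pi⁻¹ * ∫ t in (0 : ℝ)..Real.pi, g t) +
    1 / 2 * ((d : ℝ)⁻¹ * ∑ j ∈ range d, g ((2 * j + κ) * Real.pi / d))

theorem w_nonneg {σ : ℤ} (hσ : σ = 0 ∨ σ = 1 ∨ σ = -1) (N : ℕ) (t : ℝ) :
    0 ≤ 1 + (σ : ℝ) * Real.cos (N * t) := by
  have h1 := Real.neg_one_le_cos (N * t)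
  have h2 := Real.cos_le_one (N * t)
  rcases hσ with rfl | rfl | rfl <;> push_cast <;> linarith

theorem JC_mean {N : ℕ} (hN : 0 < N) {σ : ℤ} (hσ : σ = 0 ∨ σ = 1 ∨ σ = -1) : Mean (JC N σ) where
  add g h hg hh := by
    unfold JC
    rw [← mul_add, ← intervalIntegral.integral_add]
    · congr 2
      funext t
      ring
    · exact (hg.1.mul (by fun_prop)).intervalIntegrable _ _
    · exact (hh.1.mul (by fun_prop)).intervalIntegrable _ _
  smul c g hg := by
    unfold JC
    have e : (fun t : ℝ => c * g t * (1 + σ * Real.cos (N * t))) =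
        fun t => c * (g t * (1 + σ * Real.cos (N * t))) := by
      funext t
      ring
    rw [e, intervalIntegral.integral_const_mul]
    ring
  le g B hg hB := by
    have hpi := Real.pi_pos
    have hw : ∫ t in (0 : ℝ)..Real.pi, (1 + (σ : ℝ) * Real.cos (N * t)) = Real.pi := by
      rw [intervalIntegral.integral_add (by simp) ((by fun_prop : Continuous fun t : ℝ =>
        (σ : ℝ) * Real.cos (N * t)).intervalIntegrable _ _), intervalIntegral.integral_const_mul]
      have h1 := int_cos (N : ℤ)
      rw [if_neg (by exact_mod_cast hN.ne')] at h1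
      push_cast at h1
      rw [h1]
      simp
    have h1 : |∫ t in (0 : ℝ)..Real.pi, g t * (1 + σ * Real.cos (N * t))| ≤ B * Real.pi := by
      rw [← Real.norm_eq_abs]
      refine (intervalIntegral.norm_integral_le_integral_norm hpi.le).trans ?_
      have hw' : B * Real.pi = ∫ t in (0 : ℝ)..Real.pi, B * (1 + (σ : ℝ) * Real.cos (N * t)) := by
        rw [intervalIntegral.integral_const_mul, hw]
      rw [hw']
      refine intervalIntegral.integral_mono_on hpi.le ?_ ?_ fun t _ => ?_
      · exact ((hg.1.mul (by fun_prop)).norm).intervalIntegrable _ _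
      · exact (by fun_prop : Continuous fun t : ℝ =>
          B * (1 + (σ : ℝ) * Real.cos (N * t))).intervalIntegrable _ _
      · rw [norm_mul, Real.norm_eq_abs, Real.norm_of_nonneg (w_nonneg hσ N t)]
        exact mul_le_mul_of_nonneg_right (hB t) (w_nonneg hσ N t)
    unfold JC
    rw [abs_mul, abs_of_pos (inv_pos.2 hpi), inv_mul_le_iff₀ hpi, mul_comm Real.pi]
    exact h1

theorem JB_mean {d : ℕ} (hd : 0 < d) (κ : ℕ) : Mean (JB d κ) where
  add g h hg hh := by
    unfold JB
    rw [intervalIntegral.integral_add (hg.1.intervalIntegrable _ _)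
      (hh.1.intervalIntegrable _ _), sum_add_distrib]
    ring
  smul c g hg := by
    unfold JB
    rw [intervalIntegral.integral_const_mul, ← mul_sum]
    ring
  le g B hg hB := by
    have hpi := Real.pi_pos
    have h1 : |Real.pi⁻¹ * ∫ t in (0 : ℝ)..Real.pi, g t| ≤ B := by
      rw [abs_mul, abs_of_pos (inv_pos.2 hpi), inv_mul_le_iff₀ hpi, mul_comm Real.pi]
      have := intervalIntegral.norm_integral_le_of_norm_le_const (a := 0) (b := Real.pi) (f := g)
        (C := B) fun t _ => hB t
      rw [sub_zero, abs_of_pos hpi] at this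
      exact this
    have hd' : (0 : ℝ) < d := by exact_mod_cast hd
    have h2 : |(d : ℝ)⁻¹ * ∑ j ∈ range d, g ((2 * j + κ) * Real.pi / d)| ≤ B := by
      rw [abs_mul, abs_of_pos (inv_pos.2 hd'), inv_mul_le_iff₀ hd']
      refine (abs_sum_le_sum_abs _ _).trans ?_
      refine (sum_le_sum fun j _ => hB _).trans (le_of_eq ?_)
      rw [sum_const, card_range, nsmul_eq_mul]
    unfold JB
    refine (abs_add_le _ _).trans ?_
    rw [abs_mul, abs_mul (1 / 2 : ℝ), abs_of_pos (by norm_num : (0 : ℝ) < 1 / 2)]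
    linarith

/-- the moments of the continuous law -/
theorem JC_cos {N : ℕ} (hN : 0 < N) (σ n : ℤ) : JC N σ (fun t => Real.cos (n * t)) =
    (if n = 0 then 1 else 0) + if |n| = N then (σ : ℝ) / 2 else 0 := by
  have hpi := Real.pi_pos
  unfold JC
  have e : (fun t : ℝ => Real.cos (n * t) * (1 + σ * Real.cos (N * t))) = fun t =>
      Real.cos (n * t) + ((σ : ℝ) / 2 * Real.cos (((n + N : ℤ) : ℝ) * t) +
        (σ : ℝ) / 2 * Real.cos (((n - N : ℤ) : ℝ) * t)) := by
    funext t
    push_cast
    rw [add_mul, sub_mul, Real.cos_add, Real.cos_sub]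
    ring
  have hc : ∀ k : ℤ, Continuous fun t : ℝ => Real.cos ((k : ℝ) * t) := fun k => by fun_prop
  have hi1 : IntervalIntegrable (fun t : ℝ => (σ : ℝ) / 2 * Real.cos (((n + N : ℤ) : ℝ) * t))
      MeasureTheory.volume 0 Real.pi := ((hc _).const_mul _).intervalIntegrable _ _
  have hi2 : IntervalIntegrable (fun t : ℝ => (σ : ℝ) / 2 * Real.cos (((n - N : ℤ) : ℝ) * t))
      MeasureTheory.volume 0 Real.pi := ((hc _).const_mul _).intervalIntegrable _ _
  rw [e, intervalIntegral.integral_add ((hc _).intervalIntegrable _ _) (hi1.add hi2),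
    intervalIntegral.integral_add hi1 hi2, intervalIntegral.integral_const_mul,
    intervalIntegral.integral_const_mul, int_cos, int_cos, int_cos]
  have hN' : (N : ℤ) ≠ 0 := by exact_mod_cast hN.ne'
  rcases eq_or_ne n 0 with rfl | hn
  · rw [if_pos rfl, if_neg (by omega), if_neg (by omega), if_pos rfl,
      if_neg (by rw [abs_zero]; omega)]
    field_simp
    ring
  · rw [if_neg hn, if_neg hn]
    rcases eq_or_ne n N with rfl | h1
    · rw [if_neg (by omega), if_pos (by omega), if_pos (by simp)]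
      field_simp
      ring
    · rcases eq_or_ne n (-N) with rfl | h2
      · rw [if_pos (by omega), if_neg (by omega), if_pos (by simp)]
        field_simp
        ring
      · have h3 : ¬ |n| = (N : ℤ) := by
          intro h
          rcases abs_eq (by omega : (0 : ℤ) ≤ N) |>.1 h with h | h
          · exact h1 h
          · exact h2 h
        rw [if_neg (by omega), if_neg (by omega), if_neg h3]
        ring

theorem cos_sign (c : ℤ) (j κ : ℕ) (hκ : κ = 0 ∨ κ = 1) :
    Real.cos (c * ((2 * j + κ) * Real.pi)) = (((-1) ^ κ : ℤ) : ℝ) ^ c.natAbs := by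
  have h1 : Real.cos (c * ((2 * j + κ) * Real.pi)) = Real.cos (c * (κ * Real.pi)) := by
    have : (c : ℝ) * ((2 * j + κ) * Real.pi) = c * (κ * Real.pi) + ((c * j : ℤ) : ℝ) * (2 * Real.pi) := by
      push_cast
      ring
    rw [this, Real.cos_add_int_mul_two_pi]
  rw [h1]
  rcases hκ with rfl | rfl
  · simp
  · push_cast
    rw [one_mul, Real.cos_int_mul_pi]
    rcases Int.natAbs_eq c with h | h
    · conv_lhs => rw [h]
      rw [zpow_natCast]
    · conv_lhs => rw [h]
      rw [zpow_neg, zpow_natCast, ← inv_pow]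
      norm_num

/-- the moments of the mixed law -/
theorem JB_cos {d : ℕ} (hd : 0 < d) {κ : ℕ} (hκ : κ = 0 ∨ κ = 1) (n : ℤ) :
    JB d κ (fun t => Real.cos (n * t)) = (if n = 0 then 1 / 2 else 0) +
      if (d : ℤ) ∣ n then (((-1) ^ κ : ℤ) : ℝ) ^ (n / d).natAbs / 2 else 0 := by
  have hpi := Real.pi_pos
  have hd' : (0 : ℝ) < d := by exact_mod_cast hd
  unfold JB
  rw [int_cos]
  congr 1
  · split_ifs
    · field_simp
    · ring
  · split_ifs with h
    · obtain ⟨c, rfl⟩ := h
      have hd0 : (d : ℤ) ≠ 0 := by exact_mod_cast hd.ne'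
      rw [Int.mul_ediv_cancel_left _ hd0]
      have h1 : ∀ j ∈ range d, Real.cos (((d * c : ℤ) : ℝ) * ((2 * j + κ) * Real.pi / d)) =
          (((-1) ^ κ : ℤ) : ℝ) ^ c.natAbs := by
        intro j _
        rw [← cos_sign c j κ hκ]
        congr 1
        push_cast
        field_simp
      rw [sum_congr rfl h1, sum_const, card_range, nsmul_eq_mul]
      field_simp
    · have h1 : ∀ j ∈ range d, Real.cos ((n : ℝ) * ((2 * j + κ) * Real.pi / d)) =
          Real.cos (n * κ * Real.pi / d + 2 * Real.pi * n * j / d) := by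
        intro j _
        congr 1
        ring
      rw [sum_congr rfl h1, sum_cos_zero hd n h]
      ring

end Pool.Agent.Q284.IM
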