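import Pool.Agent.Q284.IM.Tri
import Pool.Agent.Q284.IM.Mn
import Pool.Agent.Q284.IM.Mod
import Pool.Agent.TH553.ST.Ext2

/-! Angles at the primes of a number field and the L-functions of the symmetric powers. -/

set_option autoImplicit false
set_option linter.unusedSectionVars false

namespace Pool.Agent.Q284.IM

open Filter Topology Complex NumberField IsDedekindDomain Pool.Agent.W540.BE Pool.Agent.TH553.RS
  Pool.Agent.TH553.ST Pool.Agent.H341R2

section

variable {K : Type} [Field K] [NumberField K] (θ : HeightOneSpectrum (𝓞 K) → ℝ)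

/-- the eigenvalues of the symmetric powers -/
noncomputable def al (n : ℕ) (v : HeightOneSpectrum (𝓞 K)) (j : Fin (n + 1)) : ℂ :=
  cexp ((((n : ℝ) - 2 * (j : ℕ)) * θ v : ℝ) * I)

/-- the L-functions of the symmetric powers -/
noncomputable def LS (n : ℕ) (s : ℂ) : ℂ :=
  ∏' v, (∏ j : Fin (n + 1), (1 - al θ n v j * ((nm K v : ℕ) : ℂ) ^ (-s)))⁻¹

theorem norm_al (n : ℕ) (v : HeightOneSpectrum (𝓞 K)) (j : Fin (n + 1)) : ‖al θ n v j‖ = 1 := by
  unfold al
  exact Complex.norm_exp_ofReal_mul_I _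

theorem norm_sum_al (n : ℕ) (v : HeightOneSpectrum (𝓞 K)) : ‖∑ j, al θ n v j‖ ≤ (n + 1 : ℕ) := by
  refine (norm_sum_le _ _).trans ?_
  simp [norm_al]

theorem size_LS (n : ℕ) (τ : ℝ) : (∀ᶠ ε : ℝ in 𝓝[>] 0, LS θ n (1 + τ * I + ε) ≠ 0) ∧
    Tendsto (fun ε : ℝ => qt (nm K) (fun v =>
      ((∑ j, al θ n v j) * ((nm K v : ℕ) : ℂ) ^ (-(τ * I : ℂ))).re) ε -
      Real.log ‖LS θ n (1 + τ * I + ε)‖ / Real.log (1 / ε)) (𝓝[>] 0) (𝓝 0) := by
  set B : HeightOneSpectrum (𝓞 K) → Polynomial ℂ := fun v =>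
    ∏ j, (1 - Polynomial.C (al θ n v j) * Polynomial.X) with hB
  have hBe : ∀ v z, (B v).eval z = ∏ j, (1 - al θ n v j * z) := by
    intro v z
    rw [hB]
    simp [Polynomial.eval_prod]
  exact size_unit (sysF K) (al θ n) (Filter.Eventually.of_forall (norm_al θ n))
    (t := fun v => ∑ j, al θ n v j) (C := ((n + 1 : ℕ) : ℝ)) (norm_sum_al θ n)
    (Filter.Eventually.of_forall fun v => rfl) τ B (Filter.Eventually.of_forall hBe)
    (fun v => by
      rw [hBe, Finset.prod_ne_zero_iff]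
      intro j _ h4
      have h5 : ‖al θ n v j * ((nm K v : ℕ) : ℂ) ^ (-(1 + τ * I : ℂ))‖ = 1 := by
        have : al θ n v j * ((nm K v : ℕ) : ℂ) ^ (-(1 + τ * I : ℂ)) = 1 := by
          linear_combination -h4
        rw [this, norm_one]
      rw [norm_mul, norm_al, one_mul] at h5
      have h6 := cpow_le_half normSys v (s := 1 + τ * I) (by simp)
      linarith) (LS θ n)
    (fun s _ => by
      unfold LS
      refine tprod_congr fun v => ?_
      rw [hBe])

variable {U : Ultrafilter ℝ} (hU : (U : Filter ℝ) ≤ 𝓝[>] 0)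

/-- the mean values and the orders -/
theorem order_LS {n : ℕ} {τ : ℝ} {Λ : ℂ → ℂ} (h1 : MeromorphicAt Λ (1 + τ * I))
    (h2 : ∀ᶠ s in 𝓝 ((1 : ℂ) + τ * I), (1 : ℝ) < s.re → Λ s = LS θ n s) :
    ∃ m : ℤ, meromorphicOrderAt Λ (1 + τ * I) = m ∧
      ∀ U : Ultrafilter ℝ, (U : Filter ℝ) ≤ 𝓝[>] 0 → M (nm K) U (fun v =>
        ((∑ j, al θ n v j) * ((nm K v : ℕ) : ℂ) ^ (-(τ * I : ℂ))).re) = -(m : ℝ) := by
  obtain ⟨m, hm1, hm2⟩ := order_unit (size_LS θ n τ).1 h1 h2
  refine ⟨m, hm1, fun U hU => ?_⟩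
  refine M_of_tendsto hU ?_
  have h3 := (size_LS θ n τ).2.add hm2
  rw [zero_add] at h3
  refine h3.congr fun ε => ?_
  ring

/-- the mean values of the cosines -/
noncomputable def ph (U : Ultrafilter ℝ) (a : ℤ) : ℝ := M (nm K) U fun v => Real.cos (a * θ v)

theorem bd_comp {g : ℝ → ℝ} (hg : Bc g) : Bd fun v => g (θ v) := by
  obtain ⟨-, B, hB⟩ := hg
  exact ⟨B, fun v => hB _⟩

theorem bd_cos (a : ℤ) : Bd fun v => Real.cos (a * θ v) := bd_comp θ (Bc.cos a)

include hU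

/-- the mean is a mean -/
theorem M_mean : Mean fun g => M (nm K) U fun v => g (θ v) where
  add g h hg hh := M_add (sysF K) hU (bd_comp θ hg) (bd_comp θ hh)
  smul c g hg := M_const_mul (sysF K) hU (bd_comp θ hg) c
  le g B hg hB := by
    rw [abs_le]
    constructor
    · rw [← M_const (sysF K) hU (-B)]
      exact M_mono (sysF K) hU (Bd.const _) (bd_comp θ hg) fun v => (abs_le.1 (hB _)).1
    · rw [← M_const (sysF K) hU B]
      exact M_mono (sysF K) hU (bd_comp θ hg) (Bd.const _) fun v => (abs_le.1 (hB _)).2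

omit hU in
/-- the characters -/
theorem chi_fam : Fam (fun (_ : Unit) (a : ℤ) (v : HeightOneSpectrum (𝓞 K)) =>
    cexp (((a : ℝ) * θ v : ℝ) * I)) where
  norm _ _ _ := Complex.norm_exp_ofReal_mul_I _
  add _ a b v := by
    rw [← Complex.exp_add]
    congr 1
    push_cast
    ring

omit hU in
theorem av_ph (a : ℤ) : av (nm K) (fun (_ : Unit) (a : ℤ) (v : HeightOneSpectrum (𝓞 K)) =>
    cexp (((a : ℝ) * θ v : ℝ) * I)) U a = ph θ U a := by
  unfold av ph
  simp only [Fintype.card_unit, Nat.cast_one, inv_one, one_mul, Finset.univ_unique,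
    Finset.sum_singleton]
  congr 1
  funext v
  exact Complex.exp_ofReal_mul_I_re _

theorem ph_zero : ph θ U 0 = 1 := by
  rw [← av_ph]
  exact av_zero (chi_fam θ) (sysF K) hU

omit hU in
theorem ph_neg (a : ℤ) : ph θ U (-a) = ph θ U a := by
  unfold ph
  congr 1
  funext v
  rw [Int.cast_neg, neg_mul, Real.cos_neg]

theorem ph_pd (S : Finset ℤ) (x : ℤ → ℝ) :
    0 ≤ ∑ a ∈ S, ∑ b ∈ S, x a * x b * ph θ U (a - b) := by
  simp_rw [← av_ph]
  exact av_pd (chi_fam θ) (sysF K) hU S x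

theorem sum_ph (n : ℕ) : M (nm K) U (fun v => (∑ j, al θ n v j).re) =
    ∑ j ∈ Finset.range (n + 1), ph θ U (n - 2 * j) := by
  have e : (fun v => (∑ j, al θ n v j).re) = fun v =>
      ∑ j ∈ Finset.range (n + 1), Real.cos (((n - 2 * j : ℤ) : ℝ) * θ v) := by
    funext v
    rw [Complex.re_sum, Finset.sum_range]
    refine Finset.sum_congr rfl fun j _ => ?_
    unfold al
    rw [Complex.exp_ofReal_mul_I_re]
    congr 1
    push_cast
    ring
  rw [e, M_sum (sysF K) hU _ fun j _ => bd_cos θ _]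
  rfl

omit hU in
/-- the recursion -/
theorem sum_step (n : ℕ) : ∑ j ∈ Finset.range (n + 2 + 1), ph θ U ((n + 2 : ℕ) - 2 * j) =
    (∑ j ∈ Finset.range (n + 1), ph θ U (n - 2 * j)) + 2 * ph θ U (n + 2) := by
  rw [Finset.sum_range_succ, Finset.sum_range_succ']
  have h1 : ∀ j ∈ Finset.range (n + 1), ph θ U (((n + 2 : ℕ) : ℤ) - 2 * ((j + 1 : ℕ) : ℤ)) =
      ph θ U (n - 2 * j) := by
    intro j _
    congr 1
    push_cast
    ring
  rw [Finset.sum_congr rfl h1]
  have h2 : ph θ U (((n + 2 : ℕ) : ℤ) - 2 * ((n + 2 : ℕ) : ℤ)) = ph θ U (n + 2) := by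
    rw [← ph_neg]
    congr 1
    omega
  have h3 : ph θ U (((n + 2 : ℕ) : ℤ) - 2 * ((0 : ℕ) : ℤ)) = ph θ U (n + 2) :=
    congrArg (ph θ U) (by omega)
  rw [h2, h3]
  ring

end

end Pool.Agent.Q284.IM
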