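import Pool.Agent.Q284.IM.Core

/-! The three laws. -/

set_option autoImplicit false
set_option linter.unusedSectionVars false

namespace Pool.Agent.Q284.IM

open Filter Topology Complex NumberField IsDedekindDomain Pool.Agent.W540.BE Pool.Agent.TH553.RS
  Pool.Agent.TH553.ST Pool.Agent.H341R2

section

variable {K : Type} [Field K] [NumberField K] (θ : HeightOneSpectrum (𝓞 K) → ℝ)

open Classical in
/-- the indicator function of the angles away from the roots of unity -/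
noncomputable def aw (N : ℕ) (δ : ℝ) (v : HeightOneSpectrum (𝓞 K)) : ℝ :=
  if δ ≤ ‖cexp (((N : ℝ) * θ v : ℝ) * I) - 1‖ then 1 else 0

theorem bd_aw (N : ℕ) (δ : ℝ) : Bd (aw θ N δ) := ⟨1, fun v => by
  unfold aw
  split_ifs <;> simp⟩

theorem sq_dist (x : ℝ) : ‖cexp ((x : ℝ) * I) - 1‖ ^ 2 = 2 * (1 - Real.cos x) := by
  rw [← Complex.normSq_eq_norm_sq, Complex.normSq_apply]
  simp only [Complex.sub_re, Complex.sub_im, Complex.exp_ofReal_mul_I_re,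
    Complex.exp_ofReal_mul_I_im, Complex.one_re, Complex.one_im, sub_zero]
  nlinarith [Real.sin_sq_add_cos_sq x]

/-- concentration from the mean value one -/
theorem conc_of_one {N : ℕ} {δ : ℝ} (hδ : 0 < δ) {U : Ultrafilter ℝ} (hU : (U : Filter ℝ) ≤ 𝓝[>] 0)
    (h : ph θ U N = 1) : M (nm K) U (aw θ N δ) = 0 := by
  refine le_antisymm ?_ (M_nonneg (sysF K) hU (bd_aw θ N δ) fun v => by
    unfold aw
    split_ifs <;> simp)
  have h1 : (M (nm K) U fun v => 2 / δ ^ 2 * (1 - Real.cos (((N : ℤ) : ℝ) * θ v))) = 0 := by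
    rw [M_const_mul (sysF K) hU ((Bd.const 1).sub (bd_cos θ N)),
      M_sub (sysF K) hU (Bd.const 1) (bd_cos θ N), M_one (sysF K) hU]
    have h2 : (M (nm K) U fun v => Real.cos (((N : ℤ) : ℝ) * θ v)) = 1 := h
    rw [h2, sub_self, mul_zero]
  rw [← h1]
  refine M_mono (sysF K) hU (bd_aw θ N δ) (((Bd.const 1).sub (bd_cos θ N)).const_mul _) fun v => ?_
  have h3 := sq_dist ((N : ℝ) * θ v)
  have h4 : 0 ≤ 1 - Real.cos ((N : ℝ) * θ v) := by linarith [Real.cos_le_one ((N : ℝ) * θ v)]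
  rw [Int.cast_natCast]
  unfold aw
  split_ifs with h5
  · rw [div_mul_eq_mul_div, ← h3, le_div_iff₀ (by positivity), one_mul]
    exact pow_le_pow_left₀ hδ.le h5 2
  · positivity

/-- the mean value one from concentration -/
theorem one_of_conc {N : ℕ} {U : Ultrafilter ℝ} (hU : (U : Filter ℝ) ≤ 𝓝[>] 0)
    (h : ∀ δ : ℝ, 0 < δ → M (nm K) U (aw θ N δ) = 0) : ph θ U N = 1 := by
  have h1 : 0 ≤ 1 - ph θ U N := by
    have h2 : (M (nm K) U fun v => 1 - Real.cos (((N : ℤ) : ℝ) * θ v)) = 1 - ph θ U N := by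
      rw [M_sub (sysF K) hU (Bd.const 1) (bd_cos θ N), M_one (sysF K) hU]
      rfl
    rw [← h2]
    refine M_nonneg (sysF K) hU ((Bd.const 1).sub (bd_cos θ N)) fun v => ?_
    linarith [Real.cos_le_one (((N : ℤ) : ℝ) * θ v)]
  have h3 : ∀ δ : ℝ, 0 < δ → 1 - ph θ U N ≤ δ := by
    intro δ hδ
    have h4 := h (Real.sqrt (2 * δ)) (by positivity)
    have h2 : (M (nm K) U fun v => 1 - Real.cos (((N : ℤ) : ℝ) * θ v)) = 1 - ph θ U N := by
      rw [M_sub (sysF K) hU (Bd.const 1) (bd_cos θ N), M_one (sysF K) hU]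
      rfl
    have h5 : (M (nm K) U fun v => δ + 2 * aw θ N (Real.sqrt (2 * δ)) v) = δ := by
      rw [M_add (sysF K) hU (Bd.const δ) ((bd_aw θ N _).const_mul 2), M_const (sysF K) hU,
        M_const_mul (sysF K) hU (bd_aw θ N _), h4, mul_zero, add_zero]
    rw [← h2]
    refine le_trans ?_ h5.le
    refine M_mono (sysF K) hU ((Bd.const 1).sub (bd_cos θ N))
      ((Bd.const δ).add ((bd_aw θ N _).const_mul 2)) fun v => ?_
    have h6 := sq_dist ((N : ℝ) * θ v)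
    rw [Int.cast_natCast]
    unfold aw
    split_ifs with h7
    · linarith [Real.neg_one_le_cos ((N : ℝ) * θ v)]
    · push Not at h7
      have h8 := pow_le_pow_left₀ (norm_nonneg _) h7.le 2
      rw [h6, Real.sq_sqrt (by positivity)] at h8
      linarith
  have h4 : 1 - ph θ U N ≤ 0 := le_of_forall_pos_le_add fun δ hδ => by
    rw [zero_add]
    exact h3 δ hδ
  linarith

/-- the law from the moments -/
theorem law_of {J : (ℝ → ℝ) → ℝ} (hJ : Mean J)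
    (h : ∀ U : Ultrafilter ℝ, (U : Filter ℝ) ≤ 𝓝[>] 0 → ∀ n : ℤ, ph θ U n =
      J fun t => Real.cos (n * t)) {f : ℝ → ℝ} (hf : Continuous f) :
    Tendsto (dm fun v => f (Real.cos (θ v))) (𝓝[>] 0) (𝓝 (J fun t => f (Real.cos t))) := by
  refine dm_tendsto (bd_comp θ (Bc.comp_cos hf)) fun U hU => ?_
  exact mean_unique (M_mean θ hU) hJ (fun n => h U hU n) hf

/-- **The three laws.** -/
theorem three (hc : ∀ n, 1 ≤ n → ∃ Λ, Cn θ n 0 Λ) :
    (∃ N : ℕ, 1 ≤ N ∧ (∀ U : Ultrafilter ℝ, (U : Filter ℝ) ≤ 𝓝[>] 0 → ph θ U N = 1) ∧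
      ∀ δ : ℝ, 0 < δ → Tendsto (dm (aw θ N δ)) (𝓝[>] 0) (𝓝 0)) ∨
    (∃ d : ℕ, 1 ≤ d ∧ ∃ κ : ℕ, (κ = 0 ∨ κ = 1) ∧
      (∀ U : Ultrafilter ℝ, (U : Filter ℝ) ≤ 𝓝[>] 0 → ∀ n : ℤ, ph θ U n =
        JB d κ fun t => Real.cos (n * t)) ∧
      ∀ f : ℝ → ℝ, Continuous f → Tendsto (dm fun v => f (Real.cos (θ v))) (𝓝[>] 0)
        (𝓝 (JB d κ fun t => f (Real.cos t)))) ∨
    ∃ N : ℕ, 1 ≤ N ∧ ∃ σ : ℤ, (σ = 0 ∨ σ = 1 ∨ σ = -1) ∧
      (∀ U : Ultrafilter ℝ, (U : Filter ℝ) ≤ 𝓝[>] 0 → ∀ n : ℤ, ph θ U n =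
        JC N σ fun t => Real.cos (n * t)) ∧
      ∀ f : ℝ → ℝ, Continuous f → Tendsto (dm fun v => f (Real.cos (θ v))) (𝓝[>] 0)
        (𝓝 (JC N σ fun t => f (Real.cos t))) := by
  obtain ⟨m, hm0, hm1, hm⟩ := exists_m θ hc
  set U₀ : Ultrafilter ℝ := Ultrafilter.of (𝓝[>] 0) with hU₀
  have h₀ : (U₀ : Filter ℝ) ≤ 𝓝[>] 0 := Ultrafilter.of_le _
  have hdet : ∀ U : Ultrafilter ℝ, (U : Filter ℝ) ≤ 𝓝[>] 0 → ph θ U = ph θ U₀ := fun U hU =>
    val_det (ph_neg θ) (hm U hU) (ph_neg θ) (hm U₀ h₀)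
  rcases tri (ph_zero θ h₀) (ph_neg θ) (ph_pd θ h₀) (val_int (ph_neg θ) (hm U₀ h₀)) with
    ⟨N, hN, h1⟩ | ⟨d, hd, σ, hσ, h1⟩ | ⟨N, hN, σ, hσ, h1⟩
  · left
    have h2 : ∀ U : Ultrafilter ℝ, (U : Filter ℝ) ≤ 𝓝[>] 0 → ph θ U N = 1 := fun U hU => by
      rw [hdet U hU, h1]
    exact ⟨N, hN, h2, fun δ hδ => dm_tendsto (bd_aw θ N δ) fun U hU =>
      conc_of_one θ hδ hU (h2 U hU)⟩
  · right; left
    obtain ⟨κ, hκ, hκσ⟩ : ∃ κ : ℕ, (κ = 0 ∨ κ = 1) ∧ σ = (-1) ^ κ := by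
      rcases hσ with rfl | rfl
      · exact ⟨0, Or.inl rfl, by simp⟩
      · exact ⟨1, Or.inr rfl, by simp⟩
    have h2 : ∀ U : Ultrafilter ℝ, (U : Filter ℝ) ≤ 𝓝[>] 0 → ∀ n : ℤ, ph θ U n =
        JB d κ fun t => Real.cos (n * t) := fun U hU n => by
      rw [hdet U hU, h1, JB_cos hd hκ, hκσ]
    exact ⟨d, hd, κ, hκ, h2, fun f hf => law_of θ (JB_mean hd κ) h2 hf⟩
  · right; right
    have h2 : ∀ U : Ultrafilter ℝ, (U : Filter ℝ) ≤ 𝓝[>] 0 → ∀ n : ℤ, ph θ U n =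
        JC N σ fun t => Real.cos (n * t) := fun U hU n => by
      rw [hdet U hU, h1, JC_cos hN]
    exact ⟨N, hN, σ, hσ, h2, fun f hf => law_of θ (JC_mean hN hσ) h2 hf⟩

variable {m : ℕ → ℤ}

/-- the first law, `N = 2` and `σ = -1` -/
def LawS : Prop := ∀ U : Ultrafilter ℝ, (U : Filter ℝ) ≤ 𝓝[>] 0 → ∀ n : ℤ, ph θ U n =
  JC 2 (-1) fun t => Real.cos (n * t)

/-- the second law, `d = 2` and `κ = 1` -/
def LawN : Prop := ∀ U : Ultrafilter ℝ, (U : Filter ℝ) ≤ 𝓝[>] 0 → ∀ n : ℤ, ph θ U n =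
  JB 2 1 fun t => Real.cos (n * t)

/-- concentration -/
def Conc (N : ℕ) : Prop := ∀ δ : ℝ, 0 < δ → Tendsto (dm (aw θ N δ)) (𝓝[>] 0) (𝓝 0)

theorem ph_of_conc {N : ℕ} (h : Conc θ N) {U : Ultrafilter ℝ} (hU : (U : Filter ℝ) ≤ 𝓝[>] 0) :
    ph θ U N = 1 := one_of_conc θ hU fun δ hδ => M_of_dm (h δ hδ) hU

theorem ph_of_law {J : (ℝ → ℝ) → ℝ} (h : ∀ f : ℝ → ℝ, Continuous f →
    Tendsto (dm fun v => f (Real.cos (θ v))) (𝓝[>] 0) (𝓝 (J fun t => f (Real.cos t))))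
    {U : Ultrafilter ℝ} (hU : (U : Filter ℝ) ≤ 𝓝[>] 0) (n : ℤ) : ph θ U n =
      J fun t => Real.cos (n * t) := by
  have h1 := M_of_dm (h (fun x => (Polynomial.Chebyshev.T ℝ n).eval x)
    (Polynomial.Chebyshev.T ℝ n).continuous) hU
  simp only [Polynomial.Chebyshev.T_real_cos] at h1
  exact h1

theorem not_conc_S (h : LawS θ) {N : ℕ} (hN : 1 ≤ N) : ¬ Conc θ N := by
  intro hc
  set U₀ : Ultrafilter ℝ := Ultrafilter.of (𝓝[>] 0) with hU₀
  have h₀ : (U₀ : Filter ℝ) ≤ 𝓝[>] 0 := Ultrafilter.of_le _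
  have h1 := ph_of_conc θ hc h₀
  rw [h U₀ h₀, JC_cos (by omega)] at h1
  split_ifs at h1
  all_goals first | omega | (norm_num at h1)

theorem not_conc_N (h : LawN θ) {N : ℕ} (hN : 1 ≤ N) : ¬ Conc θ N := by
  intro hc
  set U₀ : Ultrafilter ℝ := Ultrafilter.of (𝓝[>] 0) with hU₀
  have h₀ : (U₀ : Filter ℝ) ≤ 𝓝[>] 0 := Ultrafilter.of_le _
  have h1 := ph_of_conc θ hc h₀
  have hN0 : ¬ ((N : ℤ) = 0) := by omega
  rw [h U₀ h₀, JB_cos (by omega) (Or.inr rfl), if_neg hN0, zero_add] at h1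
  split_ifs at h1
  · rw [pow_one] at h1
    have h2 : ∀ k : ℕ, (((-1 : ℤ)) : ℝ) ^ k ≤ 1 := by
      intro k
      push_cast
      rcases neg_one_pow_eq_or ℝ k with h | h <;> rw [h]
      norm_num
    have := h2 ((N : ℤ) / (2 : ℕ)).natAbs
    linarith
  · norm_num at h1

theorem m_S (hm0 : m 0 = 1) (hm : ∀ U : Ultrafilter ℝ, (U : Filter ℝ) ≤ 𝓝[>] 0 → ∀ n : ℕ,
      ∑ j ∈ Finset.range (n + 1), ph θ U (n - 2 * j) = m n) (h1 : LawS θ) :
    ∀ n, 1 ≤ n → m n = 0 := by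
  set U₀ : Ultrafilter ℝ := Ultrafilter.of (𝓝[>] 0) with hU₀
  have h₀ : (U₀ : Filter ℝ) ≤ 𝓝[>] 0 := Ultrafilter.of_le _
  have e2 := val_two (A := ph θ U₀) (m := m) (ph_neg θ) (hm U₀ h₀) 0
  rw [zero_add, hm0, Nat.cast_zero, zero_add] at e2
  norm_num at e2
  have hz : ∀ n : ℤ, n ≠ 0 → |n| ≠ 2 → ph θ U₀ n = 0 := by
    intro n hn hn2
    rw [h1 U₀ h₀, JC_cos (by omega), if_neg hn, if_neg (by exact_mod_cast hn2), add_zero]
  have hm1 : m 1 = 0 := by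
    have e1 := val_one (A := ph θ U₀) (m := m) (ph_neg θ) (hm U₀ h₀)
    rw [hz 1 one_ne_zero (by norm_num), mul_zero] at e1
    exact_mod_cast e1.symm
  have hm2 : m 2 = 0 := by
    rw [h1 U₀ h₀, JC_cos (by omega)] at e2
    norm_num at e2
    have : (m 2 : ℝ) = 0 := by linarith
    exact_mod_cast this
  have hstep : ∀ n, 1 ≤ n → m (n + 2) = m n := by
    intro n hn
    have e3 := val_two (A := ph θ U₀) (m := m) (ph_neg θ) (hm U₀ h₀) n
    rw [hz (n + 2) (by omega) (by rw [abs_of_pos (by omega)]; omega), mul_zero] at e3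
    have : (m (n + 2) : ℝ) = m n := by linarith
    exact_mod_cast this
  intro n hn
  induction n using Nat.strong_induction_on with
  | _ n ih =>
    rcases n with _ | _ | _ | n
    · omega
    · exact hm1
    · exact hm2
    · rw [show n + 1 + 1 + 1 = (n + 1) + 2 by ring, hstep (n + 1) (by omega)]
      exact ih (n + 1) (by omega) (by omega)

theorem m_N (hm0 : m 0 = 1) (hm : ∀ U : Ultrafilter ℝ, (U : Filter ℝ) ≤ 𝓝[>] 0 → ∀ n : ℕ,
      ∑ j ∈ Finset.range (n + 1), ph θ U (n - 2 * j) = m n) (h1 : LawN θ) :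
    m 2 = 0 ∧ m 4 = 1 := by
  set U₀ : Ultrafilter ℝ := Ultrafilter.of (𝓝[>] 0) with hU₀
  have h₀ : (U₀ : Filter ℝ) ≤ 𝓝[>] 0 := Ultrafilter.of_le _
  have e2 := val_two (A := ph θ U₀) (m := m) (ph_neg θ) (hm U₀ h₀) 0
  have e4 := val_two (A := ph θ U₀) (m := m) (ph_neg θ) (hm U₀ h₀) 2
  rw [zero_add, hm0, Nat.cast_zero, zero_add] at e2
  norm_num at e2 e4
  rw [h1 U₀ h₀, JB_cos (by omega) (Or.inr rfl)] at e2 e4
  norm_num at e2 e4
  have h2 : (m 2 : ℝ) = 0 := by linarith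
  have h4 : (m 4 : ℝ) = 1 := by linarith
  exact ⟨by exact_mod_cast h2, by exact_mod_cast h4⟩

/-- the criterion, in terms of the orders -/
theorem crit (hm0 : m 0 = 1) (hm : ∀ U : Ultrafilter ℝ, (U : Filter ℝ) ≤ 𝓝[>] 0 → ∀ n : ℕ,
      ∑ j ∈ Finset.range (n + 1), ph θ U (n - 2 * j) = m n)
    (hc : ∀ n, 1 ≤ n → ∃ Λ, Cn θ n 0 Λ) (h2 : m 2 ≤ 0) (hnc : ∀ N, 1 ≤ N → ¬ Conc θ N) :
    LawS θ ∨ LawN θ := by
  set U₀ : Ultrafilter ℝ := Ultrafilter.of (𝓝[>] 0) with hU₀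
  have h₀ : (U₀ : Filter ℝ) ≤ 𝓝[>] 0 := Ultrafilter.of_le _
  have h2R : (m 2 : ℝ) ≤ 0 := by exact_mod_cast h2
  have e2 := val_two (A := ph θ U₀) (m := m) (ph_neg θ) (hm U₀ h₀) 0
  rw [zero_add, hm0, Nat.cast_zero, zero_add] at e2
  norm_num at e2
  rcases three θ hc with ⟨N, hN, h1, h3⟩ | ⟨d, hd, κ, hκ, h1, h3⟩ | ⟨N, hN, σ, hσ, h1, h3⟩
  · exact absurd h3 (hnc N hN)
  · right
    have hdκ : d = 2 ∧ κ = 1 := by
      rw [h1 U₀ h₀, JB_cos hd hκ] at e2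
      simp only [OfNat.ofNat_ne_zero, if_false, zero_add] at e2
      split_ifs at e2 with hd2
      · have hd2' : d ∣ 2 := by exact_mod_cast hd2
        have hd3 : d = 1 ∨ d = 2 := (Nat.dvd_prime Nat.prime_two).1 hd2'
        rcases hd3 with rfl | rfl
        · exfalso
          rcases hκ with rfl | rfl
          · norm_num at e2
            linarith
          · norm_num at e2
            linarith
        · rcases hκ with rfl | rfl
          · exfalso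
            norm_num at e2
            linarith
          · exact ⟨rfl, rfl⟩
      · linarith
    obtain ⟨rfl, rfl⟩ := hdκ
    exact h1
  · left
    have hNσ : N = 2 ∧ σ = -1 := by
      rw [h1 U₀ h₀, JC_cos (by omega)] at e2
      simp only [OfNat.ofNat_ne_zero, if_false, zero_add] at e2
      split_ifs at e2 with hN2
      · have hN3 : N = 2 := by
          rw [abs_of_pos (by norm_num : (0 : ℤ) < 2)] at hN2
          omega
        refine ⟨hN3, ?_⟩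
        rcases hσ with rfl | rfl | rfl
        · push_cast at e2
          linarith
        · push_cast at e2
          linarith
        · rfl
      · linarith
    obtain ⟨rfl, rfl⟩ := hNσ
    exact h1

/-- **The criterion for the first law.** -/
theorem crit_S (hm0 : m 0 = 1) (hm : ∀ U : Ultrafilter ℝ, (U : Filter ℝ) ≤ 𝓝[>] 0 → ∀ n : ℕ,
      ∑ j ∈ Finset.range (n + 1), ph θ U (n - 2 * j) = m n)
    (hc : ∀ n, 1 ≤ n → ∃ Λ, Cn θ n 0 Λ) :
    LawS θ ↔ m 2 ≤ 0 ∧ m 4 ≤ 0 ∧ ∀ N, 1 ≤ N → ¬ Conc θ N := by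
  constructor
  · intro h
    have h1 := m_S θ hm0 hm h
    exact ⟨(h1 2 (by omega)).le, (h1 4 (by omega)).le, fun N hN => not_conc_S θ h hN⟩
  · rintro ⟨h2, h4, h5⟩
    rcases crit θ hm0 hm hc h2 h5 with h | h
    · exact h
    · have := (m_N θ hm0 hm h).2
      omega

/-- **The criterion for the second law.** -/
theorem crit_N (hm0 : m 0 = 1) (hm : ∀ U : Ultrafilter ℝ, (U : Filter ℝ) ≤ 𝓝[>] 0 → ∀ n : ℕ,
      ∑ j ∈ Finset.range (n + 1), ph θ U (n - 2 * j) = m n)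
    (hc : ∀ n, 1 ≤ n → ∃ Λ, Cn θ n 0 Λ) :
    LawN θ ↔ m 2 ≤ 0 ∧ 1 ≤ m 4 ∧ ∀ N, 1 ≤ N → ¬ Conc θ N := by
  constructor
  · intro h
    have h1 := m_N θ hm0 hm h
    exact ⟨h1.1.le, h1.2.ge, fun N hN => not_conc_N θ h hN⟩
  · rintro ⟨h2, h4, h5⟩
    rcases crit θ hm0 hm hc h2 h5 with h | h
    · have := m_S θ hm0 hm h 4 (by omega)
      omega
    · exact h

end

end Pool.Agent.Q284.IM
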