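import Pool.Agent.Q284.IM.Hel

/-! Positive definite functions on the integers with finitely many values are eventually periodic. -/

set_option autoImplicit false

namespace Pool.Agent.Q284.IM

open Filter Topology

section

variable {φ : ℤ → ℝ} (hR : (Set.range φ).Finite)
  {H : Type} [NormedAddCommGroup H] [InnerProductSpace ℝ H] [CompleteSpace H] {e : ℤ → H}
  (hG : ∀ a b, inner ℝ (e a) (e b) = φ (a - b))

include hR hG

/-- **The past determines the future.** -/
theorem past : ∃ N : ℕ, ∀ p q : ℤ, (N : ℤ) ≤ p → (N : ℤ) ≤ q →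
    (∀ j : ℤ, 1 ≤ j → j ≤ N → φ (p - j) = φ (q - j)) → φ p = φ q := by
  by_contra hcon
  push Not at hcon
  choose p q hp hq hw hne using hcon
  set V : Ultrafilter ℕ := Filter.hyperfilter ℕ with hV
  have hVt : (V : Filter ℕ) ≤ atTop := by
    rw [hV, ← Nat.cofinite_eq_atTop]
    exact Filter.hyperfilter_le_cofinite
  obtain ⟨w₁, h1⟩ := weak_lim V (fun n => e (p n)) (fun n => (norm_e hG (p n)).le)
  obtain ⟨w₂, h2⟩ := weak_lim V (fun n => e (q n)) (fun n => (norm_e hG (q n)).le)
  have horth : ∀ j : ℤ, 1 ≤ j → inner ℝ (e j) (w₁ - w₂) = 0 := by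
    intro j hj
    rw [inner_sub_right, real_inner_comm w₁, real_inner_comm w₂, sub_eq_zero]
    refine tendsto_nhds_unique (h1 (e j)) ((h2 (e j)).congr' ?_)
    filter_upwards [hVt (eventually_ge_atTop j.toNat)] with n hn
    rw [hG, hG]
    exact (hw n j hj (by omega)).symm
  have hz1 : inner ℝ w₁ (w₁ - w₂) = 0 := by
    refine tendsto_nhds_unique (h1 (w₁ - w₂)) (tendsto_const_nhds.congr' ?_)
    filter_upwards [hVt (eventually_ge_atTop 1)] with n hn
    have := hp n
    rw [horth _ (by omega)]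
  have hz2 : inner ℝ w₂ (w₁ - w₂) = 0 := by
    refine tendsto_nhds_unique (h2 (w₁ - w₂)) (tendsto_const_nhds.congr' ?_)
    filter_upwards [hVt (eventually_ge_atTop 1)] with n hn
    have := hq n
    rw [horth _ (by omega)]
  have h0 : w₁ = w₂ := by
    have h3 : inner ℝ (w₁ - w₂) (w₁ - w₂) = 0 := by
      rw [inner_sub_left, hz1, hz2, sub_zero]
    exact sub_eq_zero.1 (inner_self_eq_zero.1 h3)
  have hf1 : (Set.range fun n => φ (p n)).Finite := hR.subset (by rintro _ ⟨n, rfl⟩; exact ⟨_, rfl⟩)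
  have hf2 : (Set.range fun n => φ (q n)).Finite := hR.subset (by rintro _ ⟨n, rfl⟩; exact ⟨_, rfl⟩)
  have h4 : lm V (fun n => φ (p n)) = lm V (fun n => φ (q n)) := by
    have h5 := h1 (e 0)
    have h6 := h2 (e 0)
    simp only [hG, sub_zero] at h5 h6
    have h7 : Tendsto (fun n => φ (p n)) V (𝓝 (lm V fun n => φ (p n))) :=
      tendsto_const_nhds.congr' ((lm_spec V hf1).mono fun n hn => hn.symm)
    have h8 : Tendsto (fun n => φ (q n)) V (𝓝 (lm V fun n => φ (q n))) :=
      tendsto_const_nhds.congr' ((lm_spec V hf2).mono fun n hn => hn.symm)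
    rw [tendsto_nhds_unique h7 h5, tendsto_nhds_unique h8 h6, h0]
  obtain ⟨n, hn1, hn2⟩ := ((lm_spec V hf1).and (lm_spec V hf2)).exists
  exact hne n (by rw [hn1, hn2, h4])

/-- **Eventual periodicity.** -/
theorem ev_per : ∃ K P : ℕ, 0 < P ∧ ∀ n : ℤ, (K : ℤ) ≤ n → φ (n + P) = φ n := by
  classical
  obtain ⟨N, hN⟩ := past hR hG
  have : Finite (Set.range φ) := hR
  let W : ℕ → (Fin N → Set.range φ) := fun n j => ⟨φ ((n : ℤ) - (j + 1)), ⟨_, rfl⟩⟩
  have hinf : (Set.Ici N).Infinite := Set.Ici_infinite N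
  obtain ⟨p, hp, q, hq, hpq, hWpq⟩ := hinf.exists_ne_map_eq_of_mapsTo
    (f := W) (t := Set.univ) (fun _ _ => Set.mem_univ _) Set.finite_univ
  wlog hlt : p < q generalizing p q
  · exact this q hq p hp hpq.symm hWpq.symm (by omega)
  rw [Set.mem_Ici] at hp hq
  have hind : ∀ i : ℕ, ∀ j : ℤ, 1 ≤ j → j ≤ N → φ (p + i - j) = φ (q + i - j) := by
    intro i
    induction i with
    | zero =>
      intro j hj hjN
      have h1 := congrFun hWpq ⟨(j - 1).toNat, by omega⟩
      have h2 := congrArg Subtype.val h1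
      simp only [W] at h2
      have h3 : (((j - 1).toNat : ℕ) : ℤ) = j - 1 := Int.toNat_of_nonneg (by omega)
      rw [h3, sub_add_cancel] at h2
      simpa using h2
    | succ i ih =>
      intro j hj hjN
      rcases eq_or_ne j 1 with rfl | hj1
      · have h1 := hN (p + i) (q + i) (by omega) (by omega) ih
        push_cast
        rw [show (p : ℤ) + (i + 1) - 1 = p + i by ring, show (q : ℤ) + (i + 1) - 1 = q + i by ring]
        exact h1
      · have h1 := ih (j - 1) (by omega) (by omega)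
        push_cast
        rw [show (p : ℤ) + (i + 1) - j = p + i - (j - 1) by ring,
          show (q : ℤ) + (i + 1) - j = q + i - (j - 1) by ring]
        exact h1
  refine ⟨p, q - p, by omega, fun n hn => ?_⟩
  have h1 := hN (p + (n - p).toNat) (q + (n - p).toNat) (by omega) (by omega) (hind _)
  have h3 : (((n - p).toNat : ℕ) : ℤ) = n - p := Int.toNat_of_nonneg (by omega)
  rw [h3] at h1
  rw [show (p : ℤ) + (n - p) = n by ring] at h1
  rw [h1]
  congr 1
  omega

end

end Pool.Agent.Q284.IM
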