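import Pool.Agent.Q284.IM.Dec

/-! Classification of the positive definite functions on the integers with half integral values. -/

set_option autoImplicit false

namespace Pool.Agent.Q284.IM

open Finset

section

variable {θ : ℤ → ℝ} (h0 : θ 0 = 1) (hs : ∀ a, θ (-a) = θ a)
  (hpd : ∀ (S : Finset ℤ) (x : ℤ → ℝ), 0 ≤ ∑ a ∈ S, ∑ b ∈ S, x a * x b * θ (a - b))

include h0 hs hpd

/-- values of absolute value one are multiplicative -/
theorem mult_one {m : ℤ} (hm : θ m ^ 2 = 1) (n : ℤ) : θ (m + n) = θ m * θ n := by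
  obtain ⟨H, i1, i2, i3, e, he⟩ := gns (fun a b : ℤ => θ (a - b))
    (fun a b => by rw [← hs, neg_sub]) (frm_nonneg hpd)
  have h1 : inner ℝ (e m - θ m • e 0) (e m - θ m • e 0) = 0 := by
    rw [inner_sub_left, inner_sub_right, inner_sub_right, real_inner_smul_left,
      real_inner_smul_right, real_inner_smul_left, real_inner_smul_right, he, he, he, he]
    simp only [sub_self, sub_zero, zero_sub, hs, h0]
    linear_combination -hm
  have h2 : e m = θ m • e 0 := sub_eq_zero.1 (inner_self_eq_zero.1 h1)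
  have h3 := he m (-n)
  rw [sub_neg_eq_add] at h3
  have h4 := he 0 (-n)
  rw [sub_neg_eq_add, zero_add] at h4
  rw [← h3, h2, real_inner_smul_left, h4]

/-- integral values -/
theorem int_case (hi : ∀ a, ∃ m : ℤ, θ a = m) {P : ℕ} (hP : 0 < P) (hθP : θ P = 1) :
    ∃ d : ℕ, 0 < d ∧ ∃ σ : ℤ, (σ = 1 ∨ σ = -1) ∧
      ∀ n : ℤ, θ n = if (d : ℤ) ∣ n then (σ : ℝ) ^ (n / d).natAbs else 0 := by
  classical
  have habs : ∀ n, |θ n| ≤ 1 := fun n => by
    have := abs_le_of_pd hs hpd n
    rwa [h0] at this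
  have hval : ∀ n, θ n ≠ 0 → θ n = 1 ∨ θ n = -1 := by
    intro n hn
    obtain ⟨m, hm⟩ := hi n
    have h1 := abs_le.1 (habs n)
    rw [hm] at h1 hn ⊢
    have h2 : m ≠ 0 := by exact_mod_cast hn
    have h3 : -1 ≤ m := by exact_mod_cast h1.1
    have h4 : m ≤ 1 := by exact_mod_cast h1.2
    have h5 : m = 1 ∨ m = -1 := by omega
    rcases h5 with h | h <;> simp [h]
  have hex : ∃ d : ℕ, 0 < d ∧ θ d ≠ 0 := ⟨P, hP, by rw [hθP]; exact one_ne_zero⟩
  set d := Nat.find hex with hd
  obtain ⟨hd0, hdne⟩ := Nat.find_spec hex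
  rw [← hd] at hd0 hdne
  have hmin : ∀ r : ℕ, 0 < r → r < d → θ r = 0 := by
    intro r hr hrd
    by_contra h
    exact Nat.find_min hex hrd ⟨hr, h⟩
  have hsq : θ d ^ 2 = 1 := by
    rcases hval d hdne with h | h <;> rw [h] <;> norm_num
  obtain ⟨σ, hσ1, hσ2⟩ : ∃ σ : ℤ, (σ = 1 ∨ σ = -1) ∧ θ d = σ := by
    rcases hval d hdne with h | h
    · exact ⟨1, Or.inl rfl, by rw [h]; simp⟩
    · exact ⟨-1, Or.inr rfl, by rw [h]; simp⟩
  have hpow : ∀ k : ℕ, ∀ n : ℤ, θ (d * k + n) = (σ : ℝ) ^ k * θ n := by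
    intro k
    induction k with
    | zero => intro n; simp
    | succ k ih =>
      intro n
      have h1 := mult_one h0 hs hpd hsq (d * k + n)
      push_cast
      rw [show (d : ℤ) * (k + 1) + n = d + (d * k + n) by ring, h1, ih, hσ2, pow_succ]
      ring
  have hnat : ∀ n : ℕ, θ n = if (d : ℤ) ∣ n then (σ : ℝ) ^ ((n : ℤ) / d).natAbs else 0 := by
    intro n
    have h1 := hpow (n / d) ((n % d : ℕ) : ℤ)
    have h2 : (d : ℤ) * ((n / d : ℕ) : ℤ) + ((n % d : ℕ) : ℤ) = n := by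
      exact_mod_cast Nat.div_add_mod n d
    rw [h2] at h1
    split_ifs with hdn
    · have h3 : d ∣ n := by exact_mod_cast hdn
      rw [h1, Nat.mod_eq_zero_of_dvd h3, Nat.cast_zero, h0, mul_one]
      congr 1
    · have h3 : ¬ d ∣ n := by exact_mod_cast hdn
      rw [h1, hmin _ (Nat.pos_of_ne_zero fun h => h3 (Nat.dvd_of_mod_eq_zero h))
        (Nat.mod_lt _ hd0), mul_zero]
  refine ⟨d, hd0, σ, hσ1, fun n => ?_⟩
  rcases Int.natAbs_eq n with h | h
  · rw [h]
    exact hnat _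
  · have h1 := hnat n.natAbs
    have h3 : θ n = θ n.natAbs := by
      conv_lhs => rw [h]
      rw [hs]
    rw [h3, h1]
    by_cases hdn : (d : ℤ) ∣ n
    · rw [if_pos hdn, if_pos (Int.dvd_natAbs.2 hdn)]
      congr 1
      obtain ⟨c, rfl⟩ := hdn
      have hd0' : (d : ℤ) ≠ 0 := by exact_mod_cast hd0.ne'
      rw [Int.mul_ediv_cancel_left _ hd0', Int.natAbs_mul, Int.natAbs_natCast]
      push_cast
      rw [Int.mul_ediv_cancel_left _ hd0', Int.natAbs_abs]
    · rw [if_neg hdn, if_neg (fun h4 => hdn (Int.dvd_natAbs.1 h4))]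

end

/-- **The classification.** -/
theorem tri {φ : ℤ → ℝ} (h0 : φ 0 = 1) (hs : ∀ a, φ (-a) = φ a)
    (hpd : ∀ (S : Finset ℤ) (x : ℤ → ℝ), 0 ≤ ∑ a ∈ S, ∑ b ∈ S, x a * x b * φ (a - b))
    (hi : ∀ a, ∃ m : ℤ, 2 * φ a = m) :
    (∃ N : ℕ, 0 < N ∧ φ N = 1) ∨
    (∃ d : ℕ, 0 < d ∧ ∃ σ : ℤ, (σ = 1 ∨ σ = -1) ∧
      ∀ n : ℤ, φ n = (if n = 0 then 1 / 2 else 0) +
        if (d : ℤ) ∣ n then (σ : ℝ) ^ (n / d).natAbs / 2 else 0) ∨
    ∃ N : ℕ, 0 < N ∧ ∃ σ : ℤ, (σ = 0 ∨ σ = 1 ∨ σ = -1) ∧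
      ∀ n : ℤ, φ n = (if n = 0 then 1 else 0) + if |n| = N then (σ : ℝ) / 2 else 0 := by
  classical
  obtain ⟨H, i1, i2, i3, e, he⟩ := gns (fun a b : ℤ => φ (a - b))
    (fun a b => by rw [← hs, neg_sub]) (frm_nonneg hpd)
  have hR : (Set.range φ).Finite :=
    range_fin (n := 2) two_pos (abs_le_of_pd hs hpd) (by exact_mod_cast hi)
  obtain ⟨K, P, hP, hper⟩ := ev_per hR he
  set ψ : ℤ → ℝ := pp φ K P with hψ
  have hψe : ∀ n, ψ (-n) = ψ n := pp_even hP hper he
  have hψpd := pp_pd hP hper he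
  have hχpd := df_pd hP hper he
  have hψi : ∀ n, ∃ m : ℤ, 2 * ψ n = m := fun n => hi _
  have hfin : {a | φ a - ψ a ≠ 0}.Finite := by
    refine (Set.finite_Icc (-(K : ℤ)) K).subset fun a ha => ?_
    rw [Set.mem_ofPred_eq] at ha
    by_contra hcon
    rw [Set.mem_Icc, not_and_or, not_le, not_le] at hcon
    refine ha ?_
    rcases hcon with h | h
    · rw [← hs, ← hψe, hψ, pp_of_ge hP hper (by omega), sub_self]
    · rw [hψ, pp_of_ge hP hper h.le, sub_self]
  have hψ0 : 0 ≤ ψ 0 := by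
    have := hψpd {0} (fun _ => 1)
    simpa using this
  have hψ1 : ψ 0 ≤ 1 := by
    have := hχpd {0} (fun _ => 1)
    simp only [sum_singleton, sub_zero, one_mul, h0] at this
    linarith
  obtain ⟨m, hm⟩ := hψi 0
  have hm0 : 0 ≤ m := by
    have : (0 : ℝ) ≤ m := by rw [← hm]; linarith
    exact_mod_cast this
  have hm2 : m ≤ 2 := by
    have : (m : ℝ) ≤ 2 := by rw [← hm]; linarith
    exact_mod_cast this
  have hψle := abs_le_of_pd hψe hψpd
  have hcases : m = 0 ∨ m = 1 ∨ m = 2 := by omega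
  rcases hcases with rfl | rfl | rfl
  · -- no periodic part
    right; right
    have h1 : ψ 0 = 0 := by
      push_cast at hm
      linarith
    have h2 : ∀ n, ψ n = 0 := fun n => by
      have := hψle n
      rw [h1] at this
      exact abs_eq_zero.1 (le_antisymm this (abs_nonneg _))
    refine fin_case h0 hs hpd hi ?_
    refine hfin.subset fun a ha => ?_
    rw [Set.mem_ofPred_eq] at ha ⊢
    rwa [h2, sub_zero]
  · -- a periodic part of mass one half
    right; left
    have h1 : ψ 0 = 1 / 2 := by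
      push_cast at hm
      linarith
    have hθP : 2 * ψ P = 1 := by
      have := pp_periodic hP hper 0
      rw [zero_add] at this
      rw [hψ, this, ← hψ, h1]
      norm_num
    obtain ⟨d, hd, σ, hσ, hθ⟩ := int_case (θ := fun n => 2 * ψ n) (by simp only [h1]; norm_num)
      (fun a => by simp only [hψe]) (fun S x => by
        have h2 := mul_nonneg (by norm_num : (0 : ℝ) ≤ 2) (hψpd S x)
        rw [mul_sum] at h2
        refine h2.trans (le_of_eq (sum_congr rfl fun a _ => ?_))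
        rw [mul_sum]
        refine sum_congr rfl fun b _ => ?_
        ring) hψi hP hθP
    obtain ⟨N, hN, τ, hτ, hξ⟩ := fin_case (φ := fun n => 2 * (φ n - ψ n))
      (by simp only [h1, h0]; norm_num) (fun a => by simp only [hψe, hs]) (fun S x => by
        have h2 := mul_nonneg (by norm_num : (0 : ℝ) ≤ 2) (hχpd S x)
        rw [mul_sum] at h2
        refine h2.trans (le_of_eq (sum_congr rfl fun a _ => ?_))
        rw [mul_sum]
        refine sum_congr rfl fun b _ => ?_
        ring) (fun a => by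
          obtain ⟨m1, hm1⟩ := hi a
          obtain ⟨m2, hm2⟩ := hψi a
          refine ⟨2 * (m1 - m2), ?_⟩
          push_cast
          rw [← hm1, ← hm2]
          ring) (by
          refine hfin.subset fun a ha => ?_
          rw [Set.mem_ofPred_eq] at ha ⊢
          intro h
          rw [h, mul_zero] at ha
          exact ha rfl)
    have hτ0 : τ = 0 := by
      have h2 := hξ N
      have hN' : (N : ℤ) ≠ 0 := by exact_mod_cast hN.ne'
      rw [if_neg hN', if_pos (by simp), zero_add] at h2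
      obtain ⟨m1, hm1⟩ := hi N
      obtain ⟨m2, hm2⟩ := hψi N
      have h3 : ((2 * (m1 - m2) : ℤ) : ℝ) = (τ : ℝ) := by
        push_cast
        rw [← hm1, ← hm2]
        linear_combination 2 * h2
      have h4 : 2 * (m1 - m2) = τ := by exact_mod_cast h3
      omega
    refine ⟨d, hd, σ, hσ, fun n => ?_⟩
    have h2 := hξ n
    have h3 := hθ n
    rw [hτ0] at h2
    simp only [Int.cast_zero, zero_div, ite_self, add_zero] at h2
    have h4 : φ n = (2 * (φ n - ψ n)) / 2 + (2 * ψ n) / 2 := by ring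
    rw [h4, h2, h3]
    split_ifs <;> ring
  · -- a periodic function
    left
    have h1 : ψ 0 = 1 := by
      push_cast at hm
      linarith
    have h2 : ∀ n, φ n - ψ n = 0 := fun n => by
      have h3 := abs_le_of_pd (φ := fun n => φ n - ψ n) (fun a => by simp only [hψe, hs]) hχpd n
      simp only [h1, h0, sub_self] at h3
      exact abs_eq_zero.1 (le_antisymm h3 (abs_nonneg _))
    refine ⟨P, hP, ?_⟩
    have h3 := h2 P
    have h4 := pp_periodic hP hper 0
    rw [zero_add, ← hψ, h1] at h4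
    rw [h4] at h3
    linarith

end Pool.Agent.Q284.IM
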